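import Pool.Agent.H30V.Fin

/-!
# The choice of the parameters
-/

namespace Pool.Agent.H30V

open Finset Real Polynomial

theorem order_large (n : ℕ) (hn : 4096 ≤ n) (p : ℂ[X]) (hp : p.natDegree ≤ n)
    (h0 : ‖p.coeff 0‖ = 1) (h1 : ∀ j, ‖p.coeff j‖ ≤ 1) :
    (p.rootMultiplicity 1 : ℝ) ≤ π / 2 * √(n : ℝ) + 4 * (n : ℝ) ^ (1 / 3 : ℝ) := by
  have hn' : (4096 : ℝ) ≤ n := by exact_mod_cast hn
  have hn0 : (0 : ℝ) ≤ n := by linarith
  set t : ℝ := (n : ℝ) ^ (1 / 6 : ℝ) with ht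
  have ht0 : 0 < t := rpow_pos_of_pos (by linarith) _
  have ht6 : t ^ 6 = n := by
    rw [ht, ← rpow_natCast, ← rpow_mul hn0]; norm_num
  have ht3 : t ^ 3 = √(n : ℝ) := by
    rw [← ht6]
    have : t ^ 6 = (t ^ 3) ^ 2 := by ring
    rw [this, sqrt_sq (by positivity)]
  have ht2 : t ^ 2 = (n : ℝ) ^ (1 / 3 : ℝ) := by
    rw [ht, ← rpow_natCast, ← rpow_mul hn0]; norm_num
  have ht4 : 4 ≤ t := by
    by_contra h
    push Not at h
    have : t ^ 6 < 4 ^ 6 := pow_lt_pow_left₀ h ht0.le (by norm_num)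
    rw [ht6] at this
    linarith
  rw [← ht2, ← ht3]
  have hpi3 := pi_gt_three
  have hpi := pi_lt_d4
  -- the parameters
  obtain ⟨M, hM1, hM2⟩ : ∃ M : ℕ, π / 2 * t ^ 3 ≤ M ∧ (M : ℝ) ≤ π / 2 * t ^ 3 + 1 :=
    ⟨⌈π / 2 * t ^ 3⌉₊, Nat.le_ceil _, (Nat.ceil_lt_add_one (by positivity)).le⟩
  obtain ⟨J, hJ1, hJ2⟩ : ∃ J : ℕ, t ^ 4 ≤ J ∧ (J : ℝ) ≤ t ^ 4 + 1 :=
    ⟨⌈t ^ 4⌉₊, Nat.le_ceil _, (Nat.ceil_lt_add_one (by positivity)).le⟩
  obtain ⟨l, hl1, hl2⟩ : ∃ l : ℕ, 3.5 * t ^ 2 ≤ l ∧ (l : ℝ) ≤ 3.5 * t ^ 2 + 1 :=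
    ⟨⌈3.5 * t ^ 2⌉₊, Nat.le_ceil _, (Nat.ceil_lt_add_one (by positivity)).le⟩
  have h64 : 64 ≤ t ^ 3 := by
    have := pow_le_pow_left₀ (by norm_num : (0 : ℝ) ≤ 4) ht4 3
    norm_num at this; exact this
  have h16 : 16 ≤ t ^ 2 := by
    have := pow_le_pow_left₀ (by norm_num : (0 : ℝ) ≤ 4) ht4 2
    norm_num at this; exact this
  have hMr : (2 : ℝ) ≤ M := by nlinarith
  have hM : 2 ≤ M := by exact_mod_cast hMr
  have hL : (n : ℝ) ≤ L M := n_le_L (by rw [← ht3]; exact hM1)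
  have hJr : (1 : ℝ) ≤ J := by nlinarith
  have hJ : 1 ≤ J := by exact_mod_cast hJr
  have hM0 : (0 : ℝ) < M := by linarith
  have h1L : (1 : ℝ) ≤ L M := by linarith
  -- the angle
  have hlt : (l : ℝ) ≤ t ^ 3 := by
    have e1 : t ^ 3 = t * t ^ 2 := by ring
    rw [e1]
    nlinarith
  have hs1 : s M 1 = π / (2 * M) := by unfold s; rw [sqrt_one, mul_one]
  have hang : (l : ℝ) * arcsin (s M 1) ≤ π / 2 := by
    have ha0 : 0 ≤ arcsin (s M 1) := arcsin_nonneg.2 (s_nonneg M 1)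
    have ha := mul_le_sin ha0 (arcsin_le_pi_div_two (s M 1))
    rw [sin_arcsin (by linarith [s_nonneg M 1]) (s_le_one (by omega) (by norm_num) h1L), hs1] at ha
    have h2 : arcsin (s M 1) ≤ π / 2 * (π / (2 * M)) := by
      have e1 : arcsin (s M 1) = π / 2 * (2 / π * arcsin (s M 1)) := by field_simp
      rw [e1]
      exact mul_le_mul_of_nonneg_left (by rw [← hs1] at ha ⊢; exact ha) (by positivity)
    have h3 : π / 2 * (π / (2 * M)) ≤ π / 2 / t ^ 3 := by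
      rw [div_mul_div_comm, div_div, div_le_div_iff₀ (by positivity) (by positivity)]
      have h4 : π * t ^ 3 ≤ 2 * M := by linarith
      nlinarith [pi_pos]
    calc (l : ℝ) * arcsin (s M 1) ≤ t ^ 3 * (π / 2 / t ^ 3) :=
          mul_le_mul hlt (h2.trans h3) ha0 (by positivity)
      _ = π / 2 := by field_simp
  -- the main inequality
  have hmain : 2.1 / (n : ℝ) + J * (4 / 3 / (n : ℝ)) + 1 / √(J : ℝ) <
      (l : ℝ) ^ 2 / (2 * (M : ℝ) ^ 2) := by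
    have h2 : 1 / √(J : ℝ) ≤ 1 / t ^ 2 := by
      apply one_div_le_one_div_of_le (by positivity)
      apply le_sqrt_of_sq_le
      have e1 : (t ^ 2) ^ 2 = t ^ 4 := by ring
      rw [e1]; exact hJ1
    have h3 : (J : ℝ) * (4 / 3 / (n : ℝ)) ≤ (t ^ 4 + 1) * (4 / 3 / t ^ 6) := by
      rw [ht6]
      exact mul_le_mul_of_nonneg_right hJ2 (by positivity)
    have h4 : (M : ℝ) ≤ 1.5865 * t ^ 3 := by nlinarith
    have h5 : (M : ℝ) ^ 2 ≤ 2.518 * t ^ 6 := by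
      calc (M : ℝ) ^ 2 ≤ (1.5865 * t ^ 3) ^ 2 := pow_le_pow_left₀ hM0.le h4 2
        _ = 1.5865 ^ 2 * t ^ 6 := by ring
        _ ≤ 2.518 * t ^ 6 := by
          apply mul_le_mul_of_nonneg_right (by norm_num) (by positivity)
    have h6 : 12.25 * t ^ 4 ≤ (l : ℝ) ^ 2 := by
      calc 12.25 * t ^ 4 = (3.5 * t ^ 2) ^ 2 := by ring
        _ ≤ (l : ℝ) ^ 2 := pow_le_pow_left₀ (by positivity) hl1 2
    have h7 : 12.25 * t ^ 4 / (2 * (2.518 * t ^ 6)) ≤ (l : ℝ) ^ 2 / (2 * (M : ℝ) ^ 2) := by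
      apply div_le_div₀ (by positivity) h6 (by positivity)
      linarith
    refine lt_of_lt_of_le ?_ h7
    have h8 : 2.1 / (n : ℝ) = 2.1 / t ^ 6 := by rw [ht6]
    rw [h8]
    have h9 : 12.25 * t ^ 4 / (2 * (2.518 * t ^ 6)) = 12.25 / 5.036 * (t ^ 4 / t ^ 6) := by
      field_simp; norm_num
    have h10 : t ^ 4 / t ^ 6 = 1 / t ^ 2 := by field_simp
    have h11 : (t ^ 4 + 1) * (4 / 3 / t ^ 6) = 4 / 3 * (1 / t ^ 2) + 4 / 3 * (1 / t ^ 6) := by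
      field_simp
    have h12 : 1 / t ^ 6 ≤ 1 / 256 * (1 / t ^ 2) := by
      have e1 : 256 * t ^ 2 ≤ t ^ 6 := by
        have e2 : (256 : ℝ) ≤ t ^ 4 := by
          have := pow_le_pow_left₀ (by norm_num : (0 : ℝ) ≤ 4) ht4 4
          norm_num at this; exact this
        calc 256 * t ^ 2 ≤ t ^ 4 * t ^ 2 := mul_le_mul_of_nonneg_right e2 (by positivity)
          _ = t ^ 6 := by ring
      have e2 := one_div_le_one_div_of_le (by positivity) e1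
      refine e2.trans (le_of_eq ?_)
      rw [one_div_mul_one_div]
    rw [h9, h10]
    have h13 : 0 < 1 / t ^ 2 := by positivity
    have h14 : 2.1 / t ^ 6 = 2.1 * (1 / t ^ 6) := by ring
    rw [h14]
    have h15 : 2.1 * (1 / t ^ 6) + (4 / 3 * (1 / t ^ 2) + 4 / 3 * (1 / t ^ 6)) + 1 / t ^ 2 <
        12.25 / 5.036 * (1 / t ^ 2) := by
      generalize 1 / t ^ 2 = u at h12 h13 ⊢
      generalize 1 / t ^ 6 = v at h12 ⊢
      norm_num at h12 ⊢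
      linarith
    rw [h11] at h3
    linarith
  have hfin := order_le hM (by omega) hL hJ hang hmain p hp h0 h1
  have h2 : ((M - 1 + l : ℕ) : ℝ) = M - 1 + l := by
    rw [Nat.cast_add, Nat.cast_sub (by omega)]; simp
  have h3 : (p.rootMultiplicity 1 : ℝ) ≤ ((M - 1 + l : ℕ) : ℝ) := by exact_mod_cast hfin
  rw [h2] at h3
  linarith

end Pool.Agent.H30V
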