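import Mathlib

/-!
# A zero of order `k` at `1` annihilates the polynomials of degree `< k`
-/

namespace Pool.Agent.H30V

open Finset Polynomial

theorem theta_dvd (p : ℂ[X]) (k : ℕ) (h : (X - C 1) ^ (k + 1) ∣ p) :
    (X - C 1) ^ k ∣ X * derivative p := by
  obtain ⟨q, rfl⟩ := h
  rw [derivative_mul, derivative_X_sub_C_pow]
  apply Dvd.dvd.mul_left
  apply dvd_add
  · refine Dvd.dvd.mul_right ?_ q
    simp only [Nat.add_sub_cancel]
    exact Dvd.intro_left _ rfl
  · exact Dvd.dvd.mul_right (pow_dvd_pow _ (Nat.le_succ k)) _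

theorem moment (n : ℕ) (r : ℕ) : ∀ (k : ℕ) (p : ℂ[X]), p.natDegree ≤ n → (X - C 1) ^ k ∣ p → r < k →
    ∑ j ∈ range (n + 1), p.coeff j * (j : ℂ) ^ r = 0 := by
  induction r with
  | zero =>
    intro k p hn h hk
    have h1 : p.eval 1 = 0 := by
      have h2 : (X - C 1) ∣ p := (dvd_pow_self _ (by omega)).trans h
      exact dvd_iff_isRoot.1 h2
    rw [eval_eq_sum_range' (Nat.lt_succ_of_le hn)] at h1
    simpa using h1
  | succ r ih =>
    intro k p hn h hk
    obtain ⟨m, rfl⟩ : ∃ m, k = m + 1 := ⟨k - 1, by omega⟩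
    have hdeg : (X * derivative p).natDegree ≤ n := by
      rcases Nat.eq_zero_or_pos p.natDegree with h0 | h0
      · rw [natDegree_eq_zero] at h0
        obtain ⟨c, rfl⟩ := h0
        simp
      · refine natDegree_mul_le.trans ?_
        have h2 := natDegree_derivative_lt (p := p) (by omega)
        rw [natDegree_X]
        omega
    have h1 := ih m (X * derivative p) hdeg (theta_dvd p m h) (by omega)
    rw [← h1]
    apply sum_congr rfl
    intro j _
    have hc : (X * derivative p).coeff j = j * p.coeff j := by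
      cases j with
      | zero => simp
      | succ j => rw [coeff_X_mul, coeff_derivative]; push_cast; ring
    rw [hc, pow_succ]; ring

theorem dual (n k : ℕ) (p Q : ℂ[X]) (hn : p.natDegree ≤ n) (h : (X - C 1) ^ k ∣ p)
    (hQ : Q.natDegree < k) : ∑ j ∈ range (n + 1), p.coeff j * Q.eval (j : ℂ) = 0 := by
  have h1 : ∀ j : ℕ, Q.eval (j : ℂ) = ∑ r ∈ range k, Q.coeff r * (j : ℂ) ^ r :=
    fun j => eval_eq_sum_range' hQ _
  simp only [h1, mul_sum]
  rw [sum_comm]
  apply sum_eq_zero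
  intro r hr
  have h2 := moment n r k p hn h (mem_range.1 hr)
  have h3 : ∑ j ∈ range (n + 1), p.coeff j * (Q.coeff r * (j : ℂ) ^ r) =
      Q.coeff r * ∑ j ∈ range (n + 1), p.coeff j * (j : ℂ) ^ r := by
    rw [mul_sum]; apply sum_congr rfl; intro j _; ring
  rw [h3, h2, mul_zero]

/-- the basic criterion -/
theorem mult_le (n : ℕ) (Q : ℝ[X]) (hQ : ∑ j ∈ range n, |Q.eval ((j : ℝ) + 1)| < |Q.eval 0|)
    (p : ℂ[X]) (hn : p.natDegree ≤ n) (h0 : ‖p.coeff 0‖ = 1) (h1 : ∀ j, ‖p.coeff j‖ ≤ 1) :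
    p.rootMultiplicity 1 ≤ Q.natDegree := by
  by_contra hlt
  have hlt : Q.natDegree < p.rootMultiplicity 1 := by omega
  have hd := pow_rootMultiplicity_dvd p 1
  have hdeg : (Q.map (algebraMap ℝ ℂ)).natDegree < p.rootMultiplicity 1 :=
    lt_of_le_of_lt natDegree_map_le hlt
  have h2 := dual n _ p (Q.map (algebraMap ℝ ℂ)) hn hd hdeg
  have h3 : ∀ x : ℝ, (Q.map (algebraMap ℝ ℂ)).eval (x : ℂ) = ((Q.eval x : ℝ) : ℂ) := by
    intro x
    rw [eval_map]
    exact eval₂_at_apply (algebraMap ℝ ℂ) x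
  rw [sum_range_succ'] at h2
  have h4 : (Q.map (algebraMap ℝ ℂ)).eval (((0 : ℕ) : ℂ)) = ((Q.eval 0 : ℝ) : ℂ) := by
    have := h3 0
    simpa using this
  have h5 : ∀ j : ℕ, (Q.map (algebraMap ℝ ℂ)).eval (((j + 1 : ℕ) : ℂ)) =
      ((Q.eval ((j : ℝ) + 1) : ℝ) : ℂ) := by
    intro j
    rw [← h3]; push_cast; rfl
  rw [h4] at h2
  simp only [h5] at h2
  have h6 : ‖p.coeff 0 * ((Q.eval 0 : ℝ) : ℂ)‖ ≤ ∑ j ∈ range n, |Q.eval ((j : ℝ) + 1)| := by
    have h7 : p.coeff 0 * ((Q.eval 0 : ℝ) : ℂ) =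
        - ∑ j ∈ range n, p.coeff (j + 1) * ((Q.eval ((j : ℝ) + 1) : ℝ) : ℂ) := by
      linear_combination h2
    rw [h7, norm_neg]
    refine (norm_sum_le _ _).trans ?_
    apply sum_le_sum
    intro j _
    rw [norm_mul, Complex.norm_real, Real.norm_eq_abs]
    exact mul_le_of_le_one_left (abs_nonneg _) (h1 _)
  rw [norm_mul, h0, one_mul, Complex.norm_real, Real.norm_eq_abs] at h6
  linarith

end Pool.Agent.H30V
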