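import Pool.Agent.H30V.Sum
import Pool.Agent.H30V.Dual

/-!
# The estimate of the finite sums
-/

namespace Pool.Agent.H30V

open Finset Real Polynomial

theorem n_le_L {M n : ℕ} (h : π / 2 * √(n : ℝ) ≤ M) : (n : ℝ) ≤ L M := by
  unfold L
  rw [le_div_iff₀ (by positivity)]
  have h1 : (π / 2 * √(n : ℝ)) ^ 2 ≤ (M : ℝ) ^ 2 := pow_le_pow_left₀ (by positivity) h 2
  rw [mul_pow, sq_sqrt (Nat.cast_nonneg n)] at h1
  nlinarith

theorem QP_one_bound {M n : ℕ} (hM : 2 ≤ M) (hn : 1 ≤ n) (hL : (n : ℝ) ≤ L M) :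
    |(QP M).eval 1| ≤ 1 / 2 + 2.1 / n := by
  have hn' : (1 : ℝ) ≤ n := by exact_mod_cast hn
  have h1L : (1 : ℝ) ≤ L M := by linarith
  have hM' : (0 : ℝ) < M := by positivity
  have h1 := phase_bound (M := M) (by omega) (x := 1) (by norm_num) h1L
  rw [QP_eval' (by omega) (by norm_num) h1L]
  have h2 := K_lip M hM (2 * arcsin (s M 1)) (π / M)
  rw [K_pi_div M hM] at h2
  have h3 : |(M : ℝ) * (2 * arcsin (s M 1)) - M * (π / M)| ≤ 2 / 3 * π * (1 / L M) := by
    have e1 : (M : ℝ) * (2 * arcsin (s M 1)) - M * (π / M) = 2 * M * arcsin (s M 1) - π * √1 := by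
      rw [sqrt_one]; field_simp
    rw [e1]
    refine h1.trans (le_of_eq ?_)
    rw [s_sq (by omega) (by norm_num), sqrt_one]; ring
  have h4 : 2 / 3 * π * (1 / L M) ≤ 2.1 / n := by
    have h5 : 1 / L M ≤ 1 / n := one_div_le_one_div_of_le (by linarith) hL
    have h6 : 2 / 3 * π ≤ 2.1 := by linarith [pi_lt_d2]
    calc 2 / 3 * π * (1 / L M) ≤ 2.1 * (1 / n) := mul_le_mul h6 h5 (by positivity) (by norm_num)
      _ = 2.1 / n := by ring
  have h5 : |K M (2 * arcsin (s M 1))| ≤ |K M (2 * arcsin (s M 1)) - 1 / 2| + |(1 / 2 : ℝ)| := by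
    have := abs_add_le (K M (2 * arcsin (s M 1)) - 1 / 2) (1 / 2)
    simpa using this
  have h6 : |(1 / 2 : ℝ)| = 1 / 2 := abs_of_pos (by norm_num)
  linarith

theorem QP_j_bound {M n : ℕ} (hM : 2 ≤ M) (hL : (n : ℝ) ≤ L M) (j : ℕ) (hj : 2 ≤ j) (hjn : j ≤ n) :
    |(QP M).eval (j : ℝ)| ≤ |g j| + 4 / 3 / n := by
  have hj' : (2 : ℝ) ≤ j := by exact_mod_cast hj
  have hjn' : (j : ℝ) ≤ n := by exact_mod_cast hjn
  have hn' : (0 : ℝ) < n := by linarith
  have hjL : (j : ℝ) ≤ L M := by linarith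
  have hLp : 0 < L M := by linarith
  refine (QP_bound hM (by linarith) hjL).trans ?_
  have h1 := phase_bound (M := M) (by omega) (x := (j : ℝ)) (by linarith) hjL
  have h2 : |sin (2 * M * arcsin (s M j))| ≤ |sin (π * √(j : ℝ))| +
      2 / 3 * (π * √(j : ℝ)) * s M j ^ 2 := by
    have h3 : |sin (2 * M * arcsin (s M j)) - sin (π * √(j : ℝ))| ≤
        |2 * M * arcsin (s M j) - π * √(j : ℝ)| := abs_sin_sub_sin_le _ _
    have h4 := abs_add_le (sin (2 * M * arcsin (s M j)) - sin (π * √(j : ℝ))) (sin (π * √(j : ℝ)))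
    rw [sub_add_cancel] at h4
    linarith
  have hsq : 0 < √(j : ℝ) := sqrt_pos.2 (by linarith)
  have hj1 : (0 : ℝ) < j - 1 := by linarith
  have hden : 0 < π * √(j : ℝ) * (j - 1) := by positivity
  have hg : |g j| = |sin (π * √(j : ℝ))| / (π * √(j : ℝ) * (j - 1)) := by
    unfold g
    rw [if_neg (by omega), if_neg (by omega), abs_div, abs_neg, abs_of_pos hden]
  calc |sin (2 * M * arcsin (s M j))| / (π * √(j : ℝ) * (j - 1))
      ≤ (|sin (π * √(j : ℝ))| + 2 / 3 * (π * √(j : ℝ)) * s M j ^ 2) / (π * √(j : ℝ) * (j - 1)) :=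
        div_le_div_of_nonneg_right h2 hden.le
    _ = |g j| + 2 / 3 * s M j ^ 2 / (j - 1) := by
        rw [hg, add_div]
        congr 1
        field_simp
    _ ≤ |g j| + 4 / 3 / n := by
        have h5 : 2 / 3 * s M j ^ 2 / (j - 1) ≤ 4 / 3 / n := by
          rw [s_sq (by omega) (by linarith), div_le_div_iff₀ hj1 hn']
          have h6 : (j : ℝ) / L M * n ≤ j := by
            rw [div_mul_eq_mul_div, div_le_iff₀ hLp]
            exact mul_le_mul_of_nonneg_left hL (by linarith)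
          nlinarith
        linarith

theorem sum_g_two (N : ℕ) : ∑ i ∈ range N, |g (i + 2)| ≤ 1 / 2 := by
  have h1 : Summable (fun j : ℕ => |g (j + 1)|) :=
    (summable_nat_add_iff (f := fun j => |g j|) 1).2 summable_abs_g
  have h2 := h1.sum_le_tsum (range (N + 1)) (fun i _ => abs_nonneg _)
  rw [sum_abs_g, sum_range_succ'] at h2
  have h3 : |g (0 + 1)| = 1 / 2 := by norm_num [g]
  rw [h3] at h2
  linarith

theorem sum_tele (J : ℕ) (hJ : 1 ≤ J) (N : ℕ) :
    ∑ i ∈ range N, (if J < i + 2 then (1 / √((i : ℝ) + 1) - 1 / √((i : ℝ) + 2)) else 0) ≤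
      1 / √(J : ℝ) - 1 / √((max J (N + 1) : ℕ) : ℝ) := by
  induction N with
  | zero => simp [max_eq_left hJ]
  | succ N ih =>
    rw [sum_range_succ]
    split_ifs with h
    · have h1 : max J (N + 1) = N + 1 := max_eq_right (by omega)
      have h2 : max J (N + 1 + 1) = N + 2 := max_eq_right (by omega)
      rw [h1] at ih
      rw [h2]
      push_cast at ih ⊢
      linarith
    · have h1 : max J (N + 1) = J := max_eq_left (by omega)
      have h2 : max J (N + 1 + 1) = J := max_eq_left (by omega)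
      rw [h1] at ih
      rw [h2]
      linarith

theorem sum_ind (J N : ℕ) (c : ℝ) (hc : 0 ≤ c) :
    ∑ i ∈ range N, (if J < i + 2 then 0 else c) ≤ J * c := by
  have h1 : ∀ i ∈ range N, (if J < i + 2 then 0 else c) = if i ∈ range J then
      (if J < i + 2 then 0 else c) else 0 := by
    intro i _
    by_cases h : i < J
    · rw [if_pos (mem_range.2 h)]
    · have h' : i ∉ range J := by simpa using h
      have h'' : J < i + 2 := by omega
      simp only [h', h'', if_true, if_false]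
  rw [sum_congr rfl h1, ← sum_filter]
  calc ∑ i ∈ (range N).filter (fun i => i ∈ range J), (if J < i + 2 then 0 else c)
      ≤ ∑ i ∈ (range N).filter (fun i => i ∈ range J), c := by
        apply sum_le_sum
        intro i _
        split_ifs
        · exact hc
        · exact le_rfl
    _ ≤ ∑ i ∈ range J, c := by
        apply sum_le_sum_of_subset_of_nonneg
        · intro i hi; exact (mem_filter.1 hi).2
        · intro i _ _; exact hc
    _ = J * c := by rw [sum_const, card_range, nsmul_eq_mul]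

theorem sum_QP_two {M n : ℕ} (hM : 2 ≤ M) (hL : (n : ℝ) ≤ L M) (J : ℕ) (hJ : 1 ≤ J) (N : ℕ)
    (hN : N + 1 ≤ n) :
    ∑ i ∈ range N, |(QP M).eval ((i : ℝ) + 2)| ≤ 1 / 2 + J * (4 / 3 / n) + 1 / √(J : ℝ) := by
  have hn' : (0 : ℝ) < n := by have : 0 < n := by omega
                               exact_mod_cast this
  have h1 : ∀ i ∈ range N, |(QP M).eval ((i : ℝ) + 2)| ≤ |g (i + 2)| +
      (if J < i + 2 then 0 else 4 / 3 / (n : ℝ)) +
      (if J < i + 2 then (1 / √((i : ℝ) + 1) - 1 / √((i : ℝ) + 2)) else 0) := by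
    intro i hi
    have hi := mem_range.1 hi
    have e1 : ((i : ℝ) + 2) = ((i + 2 : ℕ) : ℝ) := by push_cast; ring
    split_ifs with h
    · have h2 : |(QP M).eval (((i + 2 : ℕ) : ℝ))| ≤ 1 / √((i : ℝ) + 1) - 1 / √((i : ℝ) + 2) := by
        have hx : (1 : ℝ) < ((i + 2 : ℕ) : ℝ) := by exact_mod_cast (by omega : 1 < i + 2)
        have hxL : ((i + 2 : ℕ) : ℝ) ≤ L M := by
          have : ((i + 2 : ℕ) : ℝ) ≤ n := by exact_mod_cast (by omega : i + 2 ≤ n)
          linarith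
        have h3 := QP_bound hM hx hxL
        have h4 := tele_bound (i + 2) (by omega)
        have hsq : 0 < √((i + 2 : ℕ) : ℝ) := sqrt_pos.2 (by linarith)
        have hden : 0 < π * √((i + 2 : ℕ) : ℝ) * (((i + 2 : ℕ) : ℝ) - 1) := by
          have : 0 < ((i + 2 : ℕ) : ℝ) - 1 := by linarith
          positivity
        have h5 := div_le_div_of_nonneg_right
          (abs_sin_le_one (2 * M * arcsin (s M ((i + 2 : ℕ) : ℝ)))) hden.le
        have e2 : ((i + 2 : ℕ) : ℝ) - 1 = (i : ℝ) + 1 := by push_cast; ring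
        rw [e2] at h4 h3 h5
        rw [← e1] at h4 h3 h5 ⊢
        linarith
      rw [← e1] at h2
      have := abs_nonneg (g (i + 2))
      linarith
    · have h2 := QP_j_bound hM hL (i + 2) (by omega) (by omega)
      rw [e1]
      linarith
  refine (sum_le_sum h1).trans ?_
  rw [sum_add_distrib, sum_add_distrib]
  have h2 := sum_g_two N
  have h3 := sum_ind J N (4 / 3 / (n : ℝ)) (by positivity)
  have h4 := sum_tele J hJ N
  have h5 : 0 ≤ 1 / √((max J (N + 1) : ℕ) : ℝ) := by positivity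
  linarith

/-- the second factor -/
noncomputable def CP (M l : ℕ) : ℝ[X] :=
  C (1 / 2) * (1 + (Chebyshev.T ℝ (l : ℤ)).comp (1 - C (2 / L M) * X))

theorem natDegree_CP (M l : ℕ) : (CP M l).natDegree ≤ l := by
  unfold CP
  refine (natDegree_C_mul_le _ _).trans ?_
  refine (natDegree_add_le _ _).trans ?_
  rw [natDegree_one, Nat.zero_max]
  refine natDegree_comp_le.trans ?_
  have h1 : (Chebyshev.T ℝ (l : ℤ)).natDegree = l := by
    rw [Chebyshev.natDegree_T]; simp
  have h2 : (1 - C (2 / L M) * X : ℝ[X]).natDegree ≤ 1 := by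
    refine (natDegree_sub_le _ _).trans ?_
    simp only [natDegree_one, zero_le, sup_of_le_right]
    exact (natDegree_C_mul_le _ _).trans natDegree_X_le
  rw [h1]
  calc l * (1 - C (2 / L M) * X : ℝ[X]).natDegree ≤ l * 1 := Nat.mul_le_mul_left _ h2
    _ = l := mul_one l

theorem CP_eval {M : ℕ} (hM : 0 < M) (l : ℕ) {x : ℝ} (hx : 0 ≤ x) (hxL : x ≤ L M) :
    (CP M l).eval x = cos (l * arcsin (s M x)) ^ 2 := by
  unfold CP
  have h1 := cos_two_arcsin hM hx hxL
  have h2 : eval x (1 - C (2 / L M) * X : ℝ[X]) = cos (2 * arcsin (s M x)) := by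
    rw [h1]; simp
  rw [eval_mul, eval_C, eval_add, eval_one, eval_comp, h2, Chebyshev.T_real_cos]
  have h3 : (((l : ℤ) : ℝ)) * (2 * arcsin (s M x)) = 2 * (l * arcsin (s M x)) := by
    push_cast; ring
  rw [h3, cos_two_mul]
  ring

/-- the bound for the order, in terms of parameters -/
theorem order_le {M n J l : ℕ} (hM : 2 ≤ M) (hn : 1 ≤ n) (hL : (n : ℝ) ≤ L M) (hJ : 1 ≤ J)
    (hl : (l : ℝ) * arcsin (s M 1) ≤ π / 2)
    (hmain : 2.1 / n + J * (4 / 3 / n) + 1 / √(J : ℝ) < (l : ℝ) ^ 2 / (2 * (M : ℝ) ^ 2))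
    (p : ℂ[X]) (hp : p.natDegree ≤ n) (h0 : ‖p.coeff 0‖ = 1) (h1 : ∀ j, ‖p.coeff j‖ ≤ 1) :
    p.rootMultiplicity 1 ≤ M - 1 + l := by
  have hM0 : 0 < M := by omega
  have hM' : (0 : ℝ) < M := by positivity
  have hn' : (1 : ℝ) ≤ n := by exact_mod_cast hn
  have hdeg : (QP M * CP M l).natDegree ≤ M - 1 + l := by
    refine natDegree_mul_le.trans ?_
    have := natDegree_QP M hM0
    have := natDegree_CP M l
    omega
  refine (mult_le n (QP M * CP M l) ?_ p hp h0 h1).trans hdeg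
  have hz : (QP M * CP M l).eval 0 = 1 := by
    rw [eval_mul, QP_zero hM, CP_eval hM0 l le_rfl (by linarith)]
    simp [s]
  rw [hz, abs_one]
  obtain ⟨N, rfl⟩ : ∃ N, n = N + 1 := ⟨n - 1, by omega⟩
  rw [sum_range_succ']
  have hcp : ∀ x : ℝ, 0 ≤ x → x ≤ L M → |(CP M l).eval x| ≤ 1 := by
    intro x hx hxL
    rw [CP_eval hM0 l hx hxL, abs_of_nonneg (sq_nonneg _)]
    exact cos_sq_le_one _
  have h2 : ∑ i ∈ range N, |(QP M * CP M l).eval (((i + 1 : ℕ) : ℝ) + 1)| ≤
      ∑ i ∈ range N, |(QP M).eval ((i : ℝ) + 2)| := by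
    apply sum_le_sum
    intro i hi
    have hi := mem_range.1 hi
    have e1 : ((i + 1 : ℕ) : ℝ) + 1 = (i : ℝ) + 2 := by push_cast; ring
    rw [e1, eval_mul, abs_mul]
    apply mul_le_of_le_one_right (abs_nonneg _)
    apply hcp _ (by positivity)
    have : ((i : ℝ) + 2) ≤ ((N + 1 : ℕ) : ℝ) := by
      have : i + 2 ≤ N + 1 := by omega
      exact_mod_cast this
    linarith
  have h3 := sum_QP_two (N := N) hM hL J hJ (by omega)
  have h1L : (1 : ℝ) ≤ L M := by linarith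
  have h4 : |(QP M * CP M l).eval (((0 : ℕ) : ℝ) + 1)| ≤
      1 / 2 * (1 - ((l : ℝ) / M) ^ 2) + 2.1 / ((N + 1 : ℕ) : ℝ) := by
    have e1 : ((0 : ℕ) : ℝ) + 1 = 1 := by norm_num
    rw [e1, eval_mul, abs_mul]
    have h5 := QP_one_bound hM hn hL
    have h6 : |(CP M l).eval 1| ≤ 1 - ((l : ℝ) / M) ^ 2 := by
      rw [CP_eval hM0 l (by norm_num) h1L, abs_of_nonneg (sq_nonneg _), cos_sq']
      have h7 : (l : ℝ) / M ≤ sin (l * arcsin (s M 1)) := by
        have ha := (arcsin_le (s_nonneg M 1) (s_le_one hM0 (by norm_num) h1L)).1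
        have ha0 : 0 ≤ (l : ℝ) * arcsin (s M 1) := by
          apply mul_nonneg (Nat.cast_nonneg l)
          exact (s_nonneg M 1).trans ha
        have h8 := mul_le_sin ha0 hl
        have h9 : (l : ℝ) / M ≤ 2 / π * (l * arcsin (s M 1)) := by
          have h10 : (l : ℝ) / M = 2 / π * (l * s M 1) := by
            unfold s; rw [sqrt_one]; field_simp
          rw [h10]
          apply mul_le_mul_of_nonneg_left _ (by positivity)
          exact mul_le_mul_of_nonneg_left ha (Nat.cast_nonneg l)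
        linarith
      have h8 : ((l : ℝ) / M) ^ 2 ≤ sin (l * arcsin (s M 1)) ^ 2 :=
        pow_le_pow_left₀ (by positivity) h7 2
      linarith
    have h7 : |(CP M l).eval 1| ≤ 1 := hcp 1 (by norm_num) h1L
    have h8 := abs_nonneg ((CP M l).eval 1)
    have h9 : (0 : ℝ) ≤ 2.1 / ((N + 1 : ℕ) : ℝ) := by positivity
    calc |(QP M).eval 1| * |(CP M l).eval 1|
        ≤ (1 / 2 + 2.1 / ((N + 1 : ℕ) : ℝ)) * |(CP M l).eval 1| :=
          mul_le_mul_of_nonneg_right h5 h8
      _ = 1 / 2 * |(CP M l).eval 1| + 2.1 / ((N + 1 : ℕ) : ℝ) * |(CP M l).eval 1| := by ring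
      _ ≤ 1 / 2 * (1 - ((l : ℝ) / M) ^ 2) + 2.1 / ((N + 1 : ℕ) : ℝ) * 1 :=
          add_le_add (by linarith) (mul_le_mul_of_nonneg_left h7 h9)
      _ = _ := by ring
  have h5 : (l : ℝ) ^ 2 / (2 * (M : ℝ) ^ 2) = 1 / 2 * ((l : ℝ) / M) ^ 2 := by
    field_simp
  rw [h5] at hmain
  generalize |(QP M * CP M l).eval (((0 : ℕ) : ℝ) + 1)| = A at h4 ⊢
  generalize ∑ i ∈ range N, |(QP M * CP M l).eval (((i + 1 : ℕ) : ℝ) + 1)| = B at h2 ⊢
  generalize ∑ i ∈ range N, |(QP M).eval ((i : ℝ) + 2)| = D at h2 h3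
  generalize ((l : ℝ) / M) ^ 2 = E at h4 hmain
  generalize ((N + 1 : ℕ) : ℝ) = c at h3 h4 hmain
  generalize 1 / √(J : ℝ) = F at h3 hmain
  generalize (J : ℝ) * (4 / 3 / c) = G at h3 hmain
  generalize 2.1 / c = H at h4 hmain
  linarith

end Pool.Agent.H30V
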