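import Mathlib

/-!
# The Hann window kernel

`K M θ = (1/M) (1 + ∑_{0<l<M} (1 + cos (π l / M)) cos (l θ))`.
-/

namespace Pool.Agent.H30V

open Finset Real

/-- trapezoidal Dirichlet kernel -/
noncomputable def D (M : ℕ) (ψ : ℝ) : ℝ := 2 * ∑ l ∈ range M, cos (l * ψ) - 1 + cos (M * ψ)

theorem D_mul (M : ℕ) (ψ : ℝ) : (1 - cos ψ) * D M ψ = sin ψ * sin (M * ψ) := by
  induction M with
  | zero => simp [D]
  | succ M ih =>
    have h1 : cos (((M + 1 : ℕ) : ℝ) * ψ) = cos (M * ψ) * cos ψ - sin (M * ψ) * sin ψ := by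
      push_cast; rw [add_mul, one_mul, cos_add]
    have h2 : sin (((M + 1 : ℕ) : ℝ) * ψ) = sin (M * ψ) * cos ψ + cos (M * ψ) * sin ψ := by
      push_cast; rw [add_mul, one_mul, sin_add]
    have h3 : sin ψ ^ 2 + cos ψ ^ 2 = 1 := sin_sq_add_cos_sq ψ
    unfold D at ih ⊢
    rw [sum_range_succ, h1, h2]
    linear_combination ih - cos (M * ψ) * h3

/-- the kernel -/
noncomputable def K (M : ℕ) (θ : ℝ) : ℝ :=
  (∑ l ∈ range M, (1 + cos (π * l / M)) * cos (l * θ) - 1) / M

theorem K_eq (M : ℕ) (hM : 0 < M) (θ : ℝ) :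
    2 * M * K M θ = D M θ + (D M (θ + π / M) + D M (θ - π / M)) / 2 := by
  have hM' : (M : ℝ) ≠ 0 := by positivity
  have e1 : ∀ l : ℕ, (1 + cos (π * l / M)) * cos (l * θ) =
      cos (l * θ) + (cos (l * (θ + π / M)) + cos (l * (θ - π / M))) / 2 := by
    intro l
    have h1 : (l : ℝ) * (θ + π / M) = l * θ + π * l / M := by ring
    have h2 : (l : ℝ) * (θ - π / M) = l * θ - π * l / M := by ring
    rw [h1, h2, cos_add, cos_sub]; ring
  have e2 : cos (M * (θ + π / M)) = - cos (M * θ) := by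
    have h1 : (M : ℝ) * (θ + π / M) = M * θ + π := by field_simp
    rw [h1, cos_add_pi]
  have e3 : cos (M * (θ - π / M)) = - cos (M * θ) := by
    have h1 : (M : ℝ) * (θ - π / M) = M * θ - π := by field_simp
    rw [h1, cos_sub_pi]
  unfold K D
  rw [e2, e3, sum_congr rfl (fun l _ => e1 l), sum_add_distrib, ← sum_div, sum_add_distrib]
  generalize ∑ l ∈ range M, cos (l * θ) = A
  generalize ∑ l ∈ range M, cos (l * (θ + π / M)) = B
  generalize ∑ l ∈ range M, cos (l * (θ - π / M)) = E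
  field_simp
  ring

theorem K_closed (M : ℕ) (hM : 0 < M) (θ : ℝ) (h : cos θ ≠ cos (π / M)) :
    (1 - cos θ) * (cos θ - cos (π / M)) * (2 * M * K M θ) =
      sin (M * θ) * sin θ * (1 - cos (π / M)) := by
  have hM' : (M : ℝ) ≠ 0 := by positivity
  have d0 := D_mul M θ
  have d1 := D_mul M (θ + π / M)
  have d2 := D_mul M (θ - π / M)
  have e2 : sin (M * (θ + π / M)) = - sin (M * θ) := by
    have h1 : (M : ℝ) * (θ + π / M) = M * θ + π := by field_simp
    rw [h1, sin_add_pi]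
  have e3 : sin (M * (θ - π / M)) = - sin (M * θ) := by
    have h1 : (M : ℝ) * (θ - π / M) = M * θ - π := by field_simp
    rw [h1, sin_sub_pi]
  rw [e2, cos_add, sin_add] at d1
  rw [e3, cos_sub, sin_sub] at d2
  set β := π / (M : ℝ) with hβ
  have k := K_eq M hM θ
  rw [← hβ] at k
  have hne : cos θ - cos β ≠ 0 := sub_ne_zero.2 h
  have h3 : sin θ ^ 2 = 1 - cos θ ^ 2 := by rw [← sin_sq_add_cos_sq θ]; ring
  have h4 : sin β ^ 2 = 1 - cos β ^ 2 := by rw [← sin_sq_add_cos_sq β]; ring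
  have hp : (1 - (cos θ * cos β - sin θ * sin β)) * (1 - (cos θ * cos β + sin θ * sin β)) =
      (cos θ - cos β) ^ 2 := by
    linear_combination - (sin β) ^ 2 * h3 - (1 - cos θ ^ 2) * h4
  apply mul_left_cancel₀ hne
  have key : (1 - cos θ) * (cos θ - cos β) ^ 2 * (2 * M * K M θ) =
      sin (M * θ) * sin θ * (cos θ - cos β) * (1 - cos β) := by
    rw [k]
    set A := D M θ
    set B := D M (θ + β)
    set C := D M (θ - β)
    have s1 : (1 - cos θ) * (cos θ - cos β) ^ 2 * A =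
        (cos θ - cos β) ^ 2 * (sin θ * sin (M * θ)) := by rw [← d0]; ring
    have s2 : (1 - cos θ) * (cos θ - cos β) ^ 2 * B =
        (1 - cos θ) * (1 - (cos θ * cos β + sin θ * sin β)) *
          ((sin θ * cos β + cos θ * sin β) * -sin (M * θ)) := by
      rw [← d1, ← hp]; ring
    have s3 : (1 - cos θ) * (cos θ - cos β) ^ 2 * C =
        (1 - cos θ) * (1 - (cos θ * cos β - sin θ * sin β)) *
          ((sin θ * cos β - cos θ * sin β) * -sin (M * θ)) := by
      rw [← d2, ← hp]; ring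
    have : (1 - cos θ) * (cos θ - cos β) ^ 2 * (A + (B + C) / 2) =
        (1 - cos θ) * (cos θ - cos β) ^ 2 * A + ((1 - cos θ) * (cos θ - cos β) ^ 2 * B +
          (1 - cos θ) * (cos θ - cos β) ^ 2 * C) / 2 := by ring
    rw [this, s1, s2, s3]
    have h5 : sin β ^ 2 = 1 - cos β ^ 2 := h4
    linear_combination (sin (M * θ) * (1 - cos θ) * sin θ * cos θ) * h5
  linear_combination key

theorem sum_cos_pi (M : ℕ) (hM : 2 ≤ M) : ∑ l ∈ range M, cos (π * l / M) = 1 := by
  have hM' : (M : ℝ) ≠ 0 := by positivity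
  have h := D_mul M (π / M)
  have h1 : (M : ℝ) * (π / M) = π := by field_simp
  rw [h1, sin_pi, mul_zero] at h
  have hc : 1 - cos (π / M) ≠ 0 := by
    have h2 : cos (π / M) < 1 := by
      have := cos_lt_cos_of_nonneg_of_le_pi (le_refl 0) (x := 0) (y := π / M)
        (by apply div_le_self pi_pos.le; exact_mod_cast (by omega : 1 ≤ M))
        (by positivity)
      simpa using this
    linarith
  have h3 : D M (π / M) = 0 := by
    rcases mul_eq_zero.1 h with h | h
    · exact absurd h hc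
    · exact h
  unfold D at h3
  rw [h1, cos_pi] at h3
  have h4 : ∑ l ∈ range M, cos (l * (π / M)) = ∑ l ∈ range M, cos (π * l / M) :=
    sum_congr rfl fun l _ => by congr 1; ring
  rw [h4] at h3
  linarith

theorem sum_cos_two_pi (M : ℕ) (hM : 2 ≤ M) : ∑ l ∈ range M, cos (2 * (π * l / M)) = 0 := by
  have hM' : (M : ℝ) ≠ 0 := by positivity
  have h := D_mul M (2 * π / M)
  have h1 : (M : ℝ) * (2 * π / M) = 2 * π := by field_simp
  rw [h1, sin_two_pi, mul_zero] at h
  have hc : 1 - cos (2 * π / M) ≠ 0 := by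
    have h2 : cos (2 * π / M) < 1 := by
      have := cos_lt_cos_of_nonneg_of_le_pi (le_refl 0) (x := 0) (y := 2 * π / M)
        (by rw [div_le_iff₀ (by positivity)]
            have : (2 : ℝ) ≤ M := by exact_mod_cast hM
            nlinarith [pi_pos])
        (by positivity)
      simpa using this
    linarith
  have h3 : D M (2 * π / M) = 0 := by
    rcases mul_eq_zero.1 h with h | h
    · exact absurd h hc
    · exact h
  unfold D at h3
  rw [h1, cos_two_pi] at h3
  have h4 : ∑ l ∈ range M, cos (l * (2 * π / M)) = ∑ l ∈ range M, cos (2 * (π * l / M)) :=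
    sum_congr rfl fun l _ => by congr 1; ring
  rw [h4] at h3
  linarith

theorem K_pi_div (M : ℕ) (hM : 2 ≤ M) : K M (π / M) = 1 / 2 := by
  have hM' : (M : ℝ) ≠ 0 := by positivity
  have h1 : ∀ l : ℕ, (1 + cos (π * l / M)) * cos (l * (π / M)) =
      cos (π * l / M) + (1 + cos (2 * (π * l / M))) / 2 := by
    intro l
    have h2 : (l : ℝ) * (π / M) = π * l / M := by ring
    rw [h2, cos_two_mul]; ring
  unfold K
  rw [sum_congr rfl (fun l _ => h1 l), sum_add_distrib, sum_cos_pi M hM, ← sum_div,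
    sum_add_distrib, sum_cos_two_pi M hM, sum_const, card_range]
  field_simp
  simp

/-- the weights of the kernel -/
noncomputable def w (M l : ℕ) : ℝ := if l = 0 then 1 else 1 + cos (π * l / M)

theorem w_nonneg (M l : ℕ) : 0 ≤ w M l := by
  unfold w
  split_ifs
  · norm_num
  · linarith [neg_one_le_cos (π * l / M)]

theorem K_w (M : ℕ) (hM : 0 < M) (θ : ℝ) : K M θ = (∑ l ∈ range M, w M l * cos (l * θ)) / M := by
  unfold K
  congr 1
  obtain ⟨m, rfl⟩ : ∃ m, M = m + 1 := ⟨M - 1, by omega⟩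
  rw [sum_range_succ', sum_range_succ']
  have : ∀ l ∈ range m, w (m + 1) (l + 1) * cos (((l + 1 : ℕ) : ℝ) * θ) =
      (1 + cos (π * ((l + 1 : ℕ) : ℝ) / ((m + 1 : ℕ) : ℝ))) * cos (((l + 1 : ℕ) : ℝ) * θ) := by
    intro l _
    unfold w
    rw [if_neg (by omega)]
  rw [sum_congr rfl this]
  simp [w]
  ring

theorem sum_w (M : ℕ) (hM : 2 ≤ M) : ∑ l ∈ range M, w M l = M := by
  obtain ⟨m, rfl⟩ : ∃ m, M = m + 1 := ⟨M - 1, by omega⟩
  have h := sum_cos_pi (m + 1) hM
  rw [sum_range_succ'] at h ⊢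
  have : ∀ l ∈ range m, w (m + 1) (l + 1) =
      1 + cos (π * ((l + 1 : ℕ) : ℝ) / ((m + 1 : ℕ) : ℝ)) := by
    intro l _
    unfold w
    rw [if_neg (by omega)]
  rw [sum_congr rfl this, sum_add_distrib]
  simp [w] at h ⊢
  linarith

theorem K_zero (M : ℕ) (hM : 2 ≤ M) : K M 0 = 1 := by
  have hM' : (M : ℝ) ≠ 0 := by positivity
  rw [K_w M (by omega)]
  simp only [mul_zero, cos_zero, mul_one]
  rw [sum_w M hM]
  field_simp

theorem K_abs_le (M : ℕ) (hM : 2 ≤ M) (θ : ℝ) : |K M θ| ≤ 1 := by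
  have hM' : (0 : ℝ) < M := by positivity
  rw [K_w M (by omega), abs_div, abs_of_pos hM', div_le_one hM']
  calc |∑ l ∈ range M, w M l * cos (l * θ)| ≤ ∑ l ∈ range M, |w M l * cos (l * θ)| :=
        abs_sum_le_sum_abs _ _
    _ ≤ ∑ l ∈ range M, w M l := by
        apply sum_le_sum
        intro l _
        rw [abs_mul, abs_of_nonneg (w_nonneg M l)]
        exact mul_le_of_le_one_right (w_nonneg M l) (abs_cos_le_one _)
    _ = M := sum_w M hM

theorem K_lip (M : ℕ) (hM : 2 ≤ M) (θ θ' : ℝ) : |K M θ - K M θ'| ≤ |M * θ - M * θ'| := by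
  have hM' : (0 : ℝ) < M := by positivity
  rw [K_w M (by omega), K_w M (by omega), ← sub_div, ← sum_sub_distrib, abs_div, abs_of_pos hM',
    div_le_iff₀ hM']
  calc |∑ l ∈ range M, (w M l * cos (l * θ) - w M l * cos (l * θ'))|
      ≤ ∑ l ∈ range M, |w M l * cos (l * θ) - w M l * cos (l * θ')| := abs_sum_le_sum_abs _ _
    _ ≤ ∑ l ∈ range M, w M l * |M * θ - M * θ'| := by
        apply sum_le_sum
        intro l hl
        rw [← mul_sub, abs_mul, abs_of_nonneg (w_nonneg M l)]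
        apply mul_le_mul_of_nonneg_left _ (w_nonneg M l)
        have h1 : |cos (l * θ) - cos (l * θ')| ≤ |l * θ - l * θ'| := by
          have := abs_cos_sub_cos_le (l * θ) (l * θ')
          exact this
        refine h1.trans ?_
        rw [← mul_sub, ← mul_sub, abs_mul, abs_mul]
        apply mul_le_mul_of_nonneg_right _ (abs_nonneg _)
        rw [abs_of_nonneg (Nat.cast_nonneg l), abs_of_nonneg (Nat.cast_nonneg M)]
        exact_mod_cast (mem_range.1 hl).le
    _ = |M * θ - M * θ'| * M := by rw [← sum_mul, sum_w M hM, mul_comm]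

end Pool.Agent.H30V
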