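import Pool.Agent.H30V.Quad

/-!
# The limit of the kernels and the alternating sums over `v ^ 2 + i`
-/

namespace Pool.Agent.H30V

open Finset Real Polynomial Filter Topology

/-- the limit kernel at the integers -/
noncomputable def g (j : ℕ) : ℝ :=
  if j = 0 then 1 else if j = 1 then 1 / 2 else - sin (π * √j) / (π * √j * (j - 1))

theorem arcsin_le {t : ℝ} (h0 : 0 ≤ t) (h1 : t ≤ 1) :
    t ≤ arcsin t ∧ arcsin t ≤ t + 2 / 3 * t ^ 3 := by
  set a := arcsin t with ha
  have hs : sin a = t := sin_arcsin (by linarith) h1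
  have ha0 : 0 ≤ a := arcsin_nonneg.2 h0
  have ha1 : a ≤ π / 2 := arcsin_le_pi_div_two t
  refine ⟨?_, ?_⟩
  · rw [← hs]; exact sin_le ha0
  · rcases ha0.eq_or_lt with h | h
    · rw [← h]; positivity
    · have h2 := sin_gt_sub_cube h
      have h3 := mul_le_sin ha0 ha1
      rw [hs] at h2 h3
      have h4 : a ≤ π / 2 * t := by
        have : a = π / 2 * (2 / π * a) := by field_simp
        rw [this]
        exact mul_le_mul_of_nonneg_left h3 (by positivity)
      have h5 : a ^ 3 ≤ (π / 2 * t) ^ 3 := pow_le_pow_left₀ ha0 h4 3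
      have h6 : (π / 2) ^ 3 ≤ 4 := by
        have h7 : π / 2 ≤ 1.58 := by linarith [pi_lt_d2]
        calc (π / 2) ^ 3 ≤ 1.58 ^ 3 := pow_le_pow_left₀ (by positivity) h7 3
          _ ≤ 4 := by norm_num
      have h8 : (π / 2 * t) ^ 3 ≤ 4 * t ^ 3 := by
        rw [mul_pow]
        exact mul_le_mul_of_nonneg_right h6 (by positivity)
      linarith

theorem phase_bound {M : ℕ} (hM : 0 < M) {x : ℝ} (hx : 0 ≤ x) (hxL : x ≤ L M) :
    |2 * M * arcsin (s M x) - π * √x| ≤ 2 / 3 * (π * √x) * s M x ^ 2 := by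
  have hM' : (0 : ℝ) < M := by positivity
  obtain ⟨h1, h2⟩ := arcsin_le (s_nonneg M x) (s_le_one hM hx hxL)
  have hpi : π * √x = 2 * M * s M x := by unfold s; field_simp
  rw [hpi, ← mul_sub, abs_of_nonneg (mul_nonneg (by positivity) (by linarith))]
  calc 2 * (M : ℝ) * (arcsin (s M x) - s M x) ≤ 2 * M * (2 / 3 * s M x ^ 3) := by
        apply mul_le_mul_of_nonneg_left (by linarith) (by positivity)
    _ = _ := by ring

theorem tendsto_L : Tendsto (fun M : ℕ => L M) atTop atTop := by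
  unfold L
  apply Tendsto.atTop_div_const (by positivity)
  apply Tendsto.const_mul_atTop (by norm_num)
  exact (tendsto_pow_atTop (by norm_num)).comp tendsto_natCast_atTop_atTop

theorem tendsto_s {x : ℕ → ℝ} {y : ℝ} (hx : Tendsto x atTop (𝓝 y)) :
    Tendsto (fun M => s M (x M)) atTop (𝓝 0) := by
  have h1 : Tendsto (fun M : ℕ => π * √(x M) / 2 * (1 / (M : ℝ))) atTop (𝓝 (π * √y / 2 * 0)) := by
    apply Tendsto.mul
    · exact (((continuous_sqrt.tendsto y).comp hx).const_mul π).div_const 2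
    · exact tendsto_one_div_atTop_nhds_zero_nat
  rw [mul_zero] at h1
  refine h1.congr fun M => ?_
  unfold s
  by_cases hM : (M : ℝ) = 0
  · simp [hM]
  · field_simp

theorem eventually_le_L {x : ℕ → ℝ} {y : ℝ} (hx : Tendsto x atTop (𝓝 y)) :
    ∀ᶠ M in atTop, x M ≤ L M := by
  have h1 : ∀ᶠ M in atTop, x M < y + 1 := hx.eventually_lt_const (by linarith)
  have h2 := tendsto_L.eventually_ge_atTop (y + 1)
  filter_upwards [h1, h2] with M h3 h4
  linarith

theorem tendsto_phase {x : ℕ → ℝ} {y : ℝ} (hx : Tendsto x atTop (𝓝 y)) (h0 : ∀ᶠ M in atTop, 0 ≤ x M) :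
    Tendsto (fun M : ℕ => 2 * M * arcsin (s M (x M))) atTop (𝓝 (π * √y)) := by
  have h1 : Tendsto (fun M : ℕ => π * √(x M)) atTop (𝓝 (π * √y)) :=
    ((continuous_sqrt.tendsto y).comp hx).const_mul π
  have h2 : Tendsto (fun M : ℕ => 2 * M * arcsin (s M (x M)) - π * √(x M)) atTop (𝓝 0) := by
    have h3 : Tendsto (fun M : ℕ => 2 / 3 * (π * √(x M)) * s M (x M) ^ 2) atTop
        (𝓝 (2 / 3 * (π * √y) * 0 ^ 2)) := (h1.const_mul (2 / 3)).mul ((tendsto_s hx).pow 2)
    have h4 : 2 / 3 * (π * √y) * 0 ^ 2 = 0 := by ring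
    rw [h4] at h3
    apply squeeze_zero_norm' _ h3
    filter_upwards [h0, eventually_le_L hx, eventually_gt_atTop 0] with M h5 h6 h7
    exact phase_bound h7 h5 h6
  have h3 := h2.add h1
  simpa using h3

theorem tendsto_ratio : Tendsto (fun M : ℕ => (π / (2 * M)) / sin (π / (2 * M))) atTop (𝓝 1) := by
  have h1 : Tendsto (fun M : ℕ => π / (2 * (M : ℝ))) atTop (𝓝 0) := by
    have : Tendsto (fun M : ℕ => π / 2 * (1 / (M : ℝ))) atTop (𝓝 (π / 2 * 0)) :=
      tendsto_one_div_atTop_nhds_zero_nat.const_mul (π / 2)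
    rw [mul_zero] at this
    refine this.congr fun M => ?_
    by_cases hM : (M : ℝ) = 0
    · simp [hM]
    · field_simp
  have h2 : Tendsto (fun M : ℕ => sinc (π / (2 * (M : ℝ)))) atTop (𝓝 1) := by
    have := (continuous_sinc.tendsto 0).comp h1
    simpa [Function.comp_def] using this
  have h3 := h2.inv₀ one_ne_zero
  rw [inv_one] at h3
  refine h3.congr' ?_
  filter_upwards [eventually_gt_atTop 0] with M hM
  have hM' : (0 : ℝ) < M := by positivity
  rw [sinc_of_ne_zero (by positivity), inv_div]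

theorem tendsto_QP_one {x : ℕ → ℝ} (hx : Tendsto x atTop (𝓝 1)) :
    Tendsto (fun M => (QP M).eval (x M)) atTop (𝓝 (1 / 2)) := by
  have h0 : ∀ᶠ M in atTop, 0 ≤ x M := by
    filter_upwards [hx.eventually_const_lt (show (0 : ℝ) < 1 by norm_num)] with M hM
    exact hM.le
  have h1 := tendsto_phase hx h0
  rw [sqrt_one, mul_one] at h1
  have h2 : Tendsto (fun M : ℕ => (QP M).eval (x M) - 1 / 2) atTop (𝓝 0) := by
    have h3 : Tendsto (fun M : ℕ => |2 * M * arcsin (s M (x M)) - π|) atTop (𝓝 0) := by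
      have := (h1.sub_const π).abs
      simpa using this
    apply squeeze_zero_norm' _ h3
    filter_upwards [h0, eventually_le_L hx, eventually_ge_atTop 2] with M h5 h6 h7
    have hM' : (0 : ℝ) < M := by positivity
    rw [QP_eval' (by omega) h5 h6, ← K_pi_div M h7]
    refine (K_lip M h7 _ _).trans (le_of_eq ?_)
    congr 1
    field_simp
  have h4 := h2.add_const (1 / 2)
  simpa only [sub_add_cancel, zero_add] using h4

theorem tendsto_QP_big {x : ℕ → ℝ} {y : ℝ} (hy : 1 < y) (hx : Tendsto x atTop (𝓝 y)) :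
    Tendsto (fun M => (QP M).eval (x M)) atTop (𝓝 (- sin (π * √y) / (π * √y * (y - 1)))) := by
  have h0 : ∀ᶠ M in atTop, 1 < x M := hx.eventually_const_lt hy
  have h0' : ∀ᶠ M in atTop, 0 ≤ x M := by filter_upwards [h0] with M hM; linarith
  have h1 := tendsto_phase hx h0'
  have h2 : Tendsto (fun M : ℕ => cos (arcsin (s M (x M)))) atTop (𝓝 1) := by
    have := ((continuous_cos.comp continuous_arcsin).tendsto 0).comp (tendsto_s hx)
    simpa [Function.comp_def] using this
  have h3 : Tendsto (fun M : ℕ => π * √(x M)) atTop (𝓝 (π * √y)) :=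
    ((continuous_sqrt.tendsto y).comp hx).const_mul π
  have h4 : Tendsto (fun M : ℕ => s M (x M) ^ 2 / sin (π / (2 * M)) ^ 2) atTop (𝓝 y) := by
    have h5 : Tendsto (fun M : ℕ => x M * ((π / (2 * M)) / sin (π / (2 * M))) ^ 2) atTop
        (𝓝 (y * 1 ^ 2)) := hx.mul (tendsto_ratio.pow 2)
    rw [one_pow, mul_one] at h5
    refine h5.congr' ?_
    filter_upwards [h0'] with M h6
    unfold s
    rw [div_pow, div_pow, div_pow, mul_pow, mul_pow, sq_sqrt h6]
    ring
  have hyp : 0 < √y := sqrt_pos.2 (by linarith)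
  have h5 : Tendsto (fun M : ℕ => - (sin (2 * M * arcsin (s M (x M))) * cos (arcsin (s M (x M)))) /
      (π * √(x M) * (s M (x M) ^ 2 / sin (π / (2 * M)) ^ 2 - 1))) atTop
      (𝓝 (- (sin (π * √y) * 1) / (π * √y * (y - 1)))) := by
    apply Tendsto.div
    · exact (((continuous_sin.tendsto _).comp h1).mul h2).neg
    · exact h3.mul (h4.sub_const 1)
    · have : 0 < y - 1 := by linarith
      positivity
  rw [mul_one] at h5
  refine h5.congr' ?_
  filter_upwards [h0, eventually_le_L hx, eventually_ge_atTop 2] with M h6 h7 h8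
  rw [QP_closed h8 h6 h7]

theorem node_eq (M i v : ℕ) : node M i v = (L M - i) * sin (π * v / (2 * M)) ^ 2 + i := by
  unfold node
  have : π * v / (M : ℝ) = 2 * (π * v / (2 * M)) := by
    by_cases hM : (M : ℝ) = 0
    · simp [hM]
    · field_simp
  rw [this, cos_two_mul, cos_sq']
  ring

theorem tendsto_node (i v : ℕ) : Tendsto (fun M => node M i v) atTop (𝓝 ((v : ℝ) ^ 2 + i)) := by
  have h1 : Tendsto (fun M : ℕ => π * v / (2 * (M : ℝ))) atTop (𝓝 0) := by
    have : Tendsto (fun M : ℕ => π * v / 2 * (1 / (M : ℝ))) atTop (𝓝 (π * v / 2 * 0)) :=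
      tendsto_one_div_atTop_nhds_zero_nat.const_mul (π * v / 2)
    rw [mul_zero] at this
    refine this.congr fun M => ?_
    by_cases hM : (M : ℝ) = 0
    · simp [hM]
    · field_simp
  have h2 : Tendsto (fun M : ℕ => sinc (π * v / (2 * (M : ℝ)))) atTop (𝓝 1) := by
    have := (continuous_sinc.tendsto 0).comp h1
    simpa [Function.comp_def] using this
  have h3 : Tendsto (fun M : ℕ => sin (π * v / (2 * (M : ℝ)))) atTop (𝓝 0) := by
    have := (continuous_sin.tendsto 0).comp h1
    simpa [Function.comp_def] using this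
  have h4 : Tendsto (fun M : ℕ => ((v : ℝ) * sinc (π * v / (2 * (M : ℝ)))) ^ 2 -
      i * sin (π * v / (2 * (M : ℝ))) ^ 2 + i) atTop
      (𝓝 (((v : ℝ) * 1) ^ 2 - i * 0 ^ 2 + i)) :=
    (((h2.const_mul (v : ℝ)).pow 2).sub ((h3.pow 2).const_mul (i : ℝ))).add_const _
  have h5 : ((v : ℝ) * 1) ^ 2 - i * 0 ^ 2 + i = (v : ℝ) ^ 2 + i := by ring
  rw [h5] at h4
  refine h4.congr' ?_
  filter_upwards [eventually_gt_atTop 0] with M hM
  have hM' : (0 : ℝ) < M := by positivity
  rw [node_eq, sub_mul]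
  congr 2
  rcases Nat.eq_zero_or_pos v with hv | hv
  · simp [hv]
  · have hv' : (0 : ℝ) < v := by positivity
    rw [sinc_of_ne_zero (by positivity)]
    unfold L
    field_simp
    ring

theorem tendsto_term (i v : ℕ) :
    Tendsto (fun M => (QP M).eval (node M i v)) atTop (𝓝 (g (v ^ 2 + i))) := by
  have h := tendsto_node i v
  have hc : ((v : ℝ) ^ 2 + i) = ((v ^ 2 + i : ℕ) : ℝ) := by push_cast; ring
  rw [hc] at h
  rcases Nat.lt_or_ge (v ^ 2 + i) 1 with h1 | h1
  · have hv : v = 0 := by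
      by_contra hv
      have : 0 < v ^ 2 := by positivity
      omega
    have hi : i = 0 := by omega
    subst hv hi
    have h2 : g (0 ^ 2 + 0) = 1 := by simp [g]
    rw [h2]
    refine tendsto_const_nhds.congr' ?_
    filter_upwards [eventually_ge_atTop 2] with M hM
    have : node M 0 0 = 0 := by simp [node]
    rw [this, QP_zero hM]
  · rcases h1.eq_or_lt with h2 | h2
    · rw [← h2] at h ⊢
      have h3 : g 1 = 1 / 2 := by simp [g]
      rw [h3]
      apply tendsto_QP_one
      simpa using h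
    · have h3 := tendsto_QP_big (y := ((v ^ 2 + i : ℕ) : ℝ)) (by exact_mod_cast h2) h
      have h4 : g (v ^ 2 + i) = - sin (π * √((v ^ 2 + i : ℕ) : ℝ)) /
          (π * √((v ^ 2 + i : ℕ) : ℝ) * (((v ^ 2 + i : ℕ) : ℝ) - 1)) := by
        unfold g
        rw [if_neg (by omega), if_neg (by omega)]
      rw [h4]
      exact h3

end Pool.Agent.H30V
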