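import Pool.Agent.H30V.Sq3

/-!
# Passing to polynomials with coefficients in `{-1, 0, 1}`
-/

namespace Pool.Agent.H30V

open Finset Polynomial

theorem strip (k n : ℕ) : ∀ N : ℕ, ∀ P : ℤ[X], P.natDegree ≤ N → P.natDegree ≤ n →
    (∀ i, P.coeff i = -1 ∨ P.coeff i = 0 ∨ P.coeff i = 1) → P ≠ 0 → (X - 1 : ℤ[X]) ^ k ∣ P →
    ∃ q : ℤ[X], q.natDegree ≤ n ∧ (∀ i, q.coeff i = -1 ∨ q.coeff i = 0 ∨ q.coeff i = 1) ∧
      q.coeff 0 ≠ 0 ∧ (X - 1 : ℤ[X]) ^ k ∣ q := by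
  intro N
  induction N with
  | zero =>
    intro P h1 h2 h3 h4 h5
    refine ⟨P, h2, h3, ?_, h5⟩
    intro h0
    apply h4
    rw [eq_C_of_natDegree_le_zero h1, h0, C_0]
  | succ N ih =>
    intro P h1 h2 h3 h4 h5
    by_cases h0 : P.coeff 0 = 0
    · have hP : P = X * P.divX := by
        have := divX_mul_X_add P
        rw [h0, C_0, add_zero] at this
        rw [mul_comm]; exact this.symm
      have hne : P.divX ≠ 0 := by
        intro h; rw [h, mul_zero] at hP; exact h4 hP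
      apply ih P.divX
      · rw [natDegree_divX_eq_natDegree_tsub_one]; omega
      · rw [natDegree_divX_eq_natDegree_tsub_one]; omega
      · intro i; rw [coeff_divX]; exact h3 _
      · exact hne
      · rw [hP] at h5
        have hc : IsCoprime ((X - 1 : ℤ[X]) ^ k) X := by
          apply IsCoprime.pow_left
          exact ⟨-1, 1, by ring⟩
        exact hc.dvd_of_dvd_mul_left h5
    · exact ⟨P, h2, h3, h0, h5⟩

theorem order_transfer (n : ℕ) (B : ℝ)
    (h : ∀ p : ℂ[X], p.natDegree ≤ n → ‖p.coeff 0‖ = 1 → (∀ j, ‖p.coeff j‖ ≤ 1) →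
      (p.rootMultiplicity 1 : ℝ) ≤ B) (k : ℕ) (P : ℤ[X]) (h1 : P.natDegree ≤ n)
    (h2 : ∀ i, P.coeff i = -1 ∨ P.coeff i = 0 ∨ P.coeff i = 1) (h3 : P ≠ 0)
    (h4 : (X - 1 : ℤ[X]) ^ k ∣ P) : (k : ℝ) ≤ B := by
  obtain ⟨q, q1, q2, q3, q4⟩ := strip k n P.natDegree P le_rfl h1 h2 h3 h4
  set p : ℂ[X] := q.map (Int.castRingHom ℂ) with hp
  have hc : ∀ j, p.coeff j = ((q.coeff j : ℤ) : ℂ) := by intro j; rw [hp, coeff_map]; simp
  have hn : ∀ j, ‖p.coeff j‖ ≤ 1 := by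
    intro j
    rw [hc]
    rcases q2 j with h | h | h <;> rw [h] <;> simp
  have h0 : ‖p.coeff 0‖ = 1 := by
    rw [hc]
    rcases q2 0 with h | h | h
    · rw [h]; simp
    · exact absurd h q3
    · rw [h]; simp
  have hdeg : p.natDegree ≤ n := natDegree_map_le.trans q1
  have hB := h p hdeg h0 hn
  have hd : (X - C 1 : ℂ[X]) ^ k ∣ p := by
    obtain ⟨r, hr⟩ := q4
    refine ⟨r.map (Int.castRingHom ℂ), ?_⟩
    rw [hp, hr, Polynomial.map_mul, Polynomial.map_pow, Polynomial.map_sub, Polynomial.map_X,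
      Polynomial.map_one, C_1]
  have hp0 : p ≠ 0 := ne_zero_of_coeff p h0
  have := (le_rootMultiplicity_iff hp0).2 hd
  have : (k : ℝ) ≤ (p.rootMultiplicity 1 : ℝ) := by exact_mod_cast this
  linarith

end Pool.Agent.H30V
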