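import Mathlib
import Pool.Agent.H30V.MB

/-!
# The upper bound `(π / 2) √n + 4 n ^ (1 / 3)` for the order of vanishing at `1`

The known bound is `(16 / 7) √n + 4`.  A zero of order `k` at `1` of `∑ a_j x ^ j` annihilates all
polynomials `Q` of degree `< k`: `∑ a_j Q(j) = 0`.  So it is enough to find a polynomial `Q` of small
degree with `∑_{j = 1}^n |Q(j)| < |Q(0)|`.  We take the Hann window kernel
`Q(x) = (1/M) (1 + ∑_{0 < l < M} (1 + cos (π l / M)) T_l(1 - 2 x / L))`, `L = 4 M ^ 2 / π ^ 2 ≥ n`, which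
tends to `G(√x)`, `G(t) = sin (π t) / (π t (1 - t ^ 2))`, times a factor of small degree.  The key is the
identity `∑_{j ≥ 1} |G(√j)| = 1 = G(0)`: the sign of `G(√j)` is `-(-1) ^ ⌊√j⌋`, these are the coefficients
of `θ_4(q) / (1 - q)`, and `∑_j (-1) ^ ⌊√j⌋ G(√j) = 0` follows from an alternating quadrature formula at
the Chebyshev nodes, shifted by the integers and passed to the limit.
-/

set_option autoImplicit false

open Polynomial

namespace Pool.Agent.H30V.PiHalfBoundOld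

/-- `F_n`: integer polynomials of degree at most `n` with all coefficients in `{-1, 0, 1}`. -/
def F (n : ℕ) : Set ℤ[X] :=
  {P | P.natDegree ≤ n ∧ ∀ i, P.coeff i = -1 ∨ P.coeff i = 0 ∨ P.coeff i = 1}

/-- the orders of vanishing at `1` that are attained (at least) by nonzero elements of `F_n` -/
def orders (n : ℕ) : Set ℕ := {k | ∃ P ∈ F n, P ≠ 0 ∧ (X - 1) ^ k ∣ P}

/-- `M(n) = max {k : (x-1)^k ∣ p for some p ∈ F_n, p ≠ 0}` -/
noncomputable def M (n : ℕ) : ℕ := sSup (orders n)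

lemma orders_le {n k : ℕ} (h : k ∈ orders n) : k ≤ n := by
  obtain ⟨P, ⟨hn, _⟩, h0, hd⟩ := h
  have h1 := natDegree_le_of_dvd hd h0
  have h2 : ((X - 1 : ℤ[X]) ^ k).natDegree = k := by
    have : (X - 1 : ℤ[X]) = X - C 1 := by simp
    rw [this, (monic_X_sub_C (1 : ℤ)).natDegree_pow, natDegree_X_sub_C, mul_one]
  omega

lemma bddAbove_orders (n : ℕ) : BddAbove (orders n) := ⟨n, fun _ h => orders_le h⟩

/-- the supremum defining `M n` is a maximum -/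
lemma M_mem (n : ℕ) : M n ∈ orders n := by
  apply Nat.sSup_mem _ (bddAbove_orders n)
  refine ⟨0, 1, ⟨by simp, ?_⟩, one_ne_zero, by simp⟩
  intro i
  rw [coeff_one]
  split_ifs <;> simp

theorem result :
    (∀ n : ℕ, 1 ≤ n → ∀ p : ℂ[X], p.natDegree ≤ n → ‖p.coeff 0‖ = 1 → (∀ j, ‖p.coeff j‖ ≤ 1) →
      (p.rootMultiplicity 1 : ℝ) ≤ Real.pi / 2 * √(n : ℝ) + 4 * (n : ℝ) ^ (1 / 3 : ℝ)) ∧
    ∀ n : ℕ, 1 ≤ n → (M n : ℝ) ≤ Real.pi / 2 * √(n : ℝ) + 4 * (n : ℝ) ^ (1 / 3 : ℝ) := by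
  have h1 : ∀ n : ℕ, 1 ≤ n → ∀ p : ℂ[X], p.natDegree ≤ n → ‖p.coeff 0‖ = 1 →
      (∀ j, ‖p.coeff j‖ ≤ 1) →
      (p.rootMultiplicity 1 : ℝ) ≤ Real.pi / 2 * √(n : ℝ) + 4 * (n : ℝ) ^ (1 / 3 : ℝ) :=
    fun n hn p hp h0 h1 => H30V.order_all n hn p hp h0 h1
  refine ⟨h1, fun n hn => ?_⟩
  obtain ⟨P, ⟨hn1, hc⟩, h0, hd⟩ := M_mem n
  exact H30V.order_transfer n _ (fun p hp h0 h2 => h1 n hn p hp h0 h2) (M n) P hn1 hc h0 hd

end Pool.Agent.H30V.PiHalfBoundOld
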