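import Pool.Agent.H30V.Kern

/-!
# The polynomials `QP M` of degree `< M`
-/

namespace Pool.Agent.H30V

open Finset Real Polynomial

/-- the length of the interval -/
noncomputable def L (M : ℕ) : ℝ := 4 * (M : ℝ) ^ 2 / π ^ 2

/-- sine of the half angle -/
noncomputable def s (M : ℕ) (x : ℝ) : ℝ := π * √x / (2 * M)

/-- the polynomial -/
noncomputable def QP (M : ℕ) : ℝ[X] :=
  C (1 / (M : ℝ)) * ∑ l ∈ range M, C (w M l) * (Chebyshev.T ℝ (l : ℤ)).comp (1 - C (2 / L M) * X)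

theorem L_pos {M : ℕ} (hM : 0 < M) : 0 < L M := by unfold L; positivity

theorem s_nonneg (M : ℕ) (x : ℝ) : 0 ≤ s M x := by unfold s; positivity

theorem s_sq {M : ℕ} (hM : 0 < M) {x : ℝ} (hx : 0 ≤ x) : s M x ^ 2 = x / L M := by
  have hM' : (M : ℝ) ≠ 0 := by positivity
  unfold s L
  rw [div_pow, mul_pow, sq_sqrt hx]
  have := pi_pos.ne'
  field_simp
  ring

theorem s_le_one {M : ℕ} (hM : 0 < M) {x : ℝ} (hx : 0 ≤ x) (hxL : x ≤ L M) : s M x ≤ 1 := by
  have h1 : s M x ^ 2 ≤ 1 := by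
    rw [s_sq hM hx]
    exact (div_le_one (L_pos hM)).2 hxL
  nlinarith [s_nonneg M x]

theorem natDegree_QP (M : ℕ) (hM : 0 < M) : (QP M).natDegree < M := by
  have : (QP M).natDegree ≤ M - 1 := by
    unfold QP
    refine (natDegree_C_mul_le _ _).trans ?_
    apply natDegree_sum_le_of_forall_le
    intro l hl
    refine (natDegree_C_mul_le _ _).trans ?_
    refine natDegree_comp_le.trans ?_
    have h1 : (Chebyshev.T ℝ (l : ℤ)).natDegree = l := by
      rw [Chebyshev.natDegree_T]; simp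
    have h2 : (1 - C (2 / L M) * X : ℝ[X]).natDegree ≤ 1 := by
      refine (natDegree_sub_le _ _).trans ?_
      simp only [natDegree_one, zero_le, sup_of_le_right]
      exact (natDegree_C_mul_le _ _).trans natDegree_X_le
    rw [h1]
    calc l * (1 - C (2 / L M) * X : ℝ[X]).natDegree ≤ l * 1 := Nat.mul_le_mul_left _ h2
      _ ≤ M - 1 := by have := mem_range.1 hl; omega
  omega

theorem QP_eval {M : ℕ} (hM : 0 < M) (θ x : ℝ) (h : cos θ = 1 - 2 / L M * x) :
    (QP M).eval x = K M θ := by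
  rw [K_w M hM]
  unfold QP
  rw [eval_mul, eval_C, eval_finsetSum]
  rw [one_div, inv_mul_eq_div]
  congr 1
  apply sum_congr rfl
  intro l _
  rw [eval_mul, eval_C, eval_comp]
  congr 1
  have : eval x (1 - C (2 / L M) * X : ℝ[X]) = cos θ := by
    rw [h]; simp
  rw [this, Chebyshev.T_real_cos]
  simp

theorem cos_two_arcsin {M : ℕ} (hM : 0 < M) {x : ℝ} (hx : 0 ≤ x) (hxL : x ≤ L M) :
    cos (2 * arcsin (s M x)) = 1 - 2 / L M * x := by
  rw [cos_two_mul, cos_sq', sin_arcsin (by linarith [s_nonneg M x]) (s_le_one hM hx hxL), s_sq hM hx]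
  ring

theorem QP_eval' {M : ℕ} (hM : 0 < M) {x : ℝ} (hx : 0 ≤ x) (hxL : x ≤ L M) :
    (QP M).eval x = K M (2 * arcsin (s M x)) :=
  QP_eval hM _ _ (cos_two_arcsin hM hx hxL)

theorem QP_zero {M : ℕ} (hM : 2 ≤ M) : (QP M).eval 0 = 1 := by
  rw [QP_eval (by omega) 0 0 (by simp), K_zero M hM]

theorem QP_abs_le {M : ℕ} (hM : 2 ≤ M) {x : ℝ} (hx : 0 ≤ x) (hxL : x ≤ L M) :
    |(QP M).eval x| ≤ 1 := by
  rw [QP_eval' (by omega) hx hxL]
  exact K_abs_le M hM _

theorem h_pos {M : ℕ} (hM : 2 ≤ M) : 0 < sin (π / (2 * M)) := by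
  have hM' : (2 : ℝ) ≤ M := by exact_mod_cast hM
  apply sin_pos_of_pos_of_lt_pi (by positivity)
  rw [div_lt_iff₀ (by positivity)]
  nlinarith [pi_pos]

theorem h_lt {M : ℕ} (hM : 2 ≤ M) : sin (π / (2 * M)) < π / (2 * M) := by
  apply sin_lt
  have hM' : (2 : ℝ) ≤ M := by exact_mod_cast hM
  positivity

theorem s_gt_h {M : ℕ} (hM : 2 ≤ M) {x : ℝ} (hx : 1 ≤ x) :
    x ≤ s M x ^ 2 / sin (π / (2 * M)) ^ 2 := by
  have hM' : (0 : ℝ) < M := by positivity
  rw [le_div_iff₀ (pow_pos (h_pos hM) 2)]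
  have h1 : sin (π / (2 * M)) ^ 2 ≤ (π / (2 * M)) ^ 2 :=
    pow_le_pow_left₀ (h_pos hM).le (h_lt hM).le 2
  have h2 : s M x ^ 2 = x * (π / (2 * M)) ^ 2 := by
    unfold s
    rw [div_pow, mul_pow, sq_sqrt (by linarith)]
    ring
  rw [h2]
  exact mul_le_mul_of_nonneg_left h1 (by linarith)

/-- closed form -/
theorem QP_closed {M : ℕ} (hM : 2 ≤ M) {x : ℝ} (hx : 1 < x) (hxL : x ≤ L M) :
    (QP M).eval x = - (sin (2 * M * arcsin (s M x)) * cos (arcsin (s M x))) /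
      (π * √x * (s M x ^ 2 / sin (π / (2 * M)) ^ 2 - 1)) := by
  have hM0 : 0 < M := by omega
  have hM' : (0 : ℝ) < M := by positivity
  have hx0 : 0 ≤ x := by linarith
  have hh := h_pos hM
  have hs := s_gt_h hM hx.le
  set h := sin (π / (2 * M)) with hhdef
  set a := arcsin (s M x) with ha
  have hsin : sin a = s M x := sin_arcsin (by linarith [s_nonneg M x]) (s_le_one hM0 hx0 hxL)
  have hspos : 0 < s M x := by
    unfold s
    have : 0 < √x := sqrt_pos.2 (by linarith)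
    positivity
  rw [QP_eval' hM0 hx0 hxL, ← ha]
  have hc1 : cos (2 * a) = 1 - 2 * s M x ^ 2 := by rw [cos_two_mul, cos_sq', hsin]; ring
  have hc2 : cos (π / M) = 1 - 2 * h ^ 2 := by
    have : π / M = 2 * (π / (2 * M)) := by field_simp
    rw [this, cos_two_mul, cos_sq', hhdef]; ring
  have hs2 : sin (2 * a) = 2 * s M x * cos a := by rw [sin_two_mul, hsin]
  have hgt : h ^ 2 < s M x ^ 2 := by
    have h3 : 1 < s M x ^ 2 / h ^ 2 := lt_of_lt_of_le hx hs
    rwa [one_lt_div (pow_pos hh 2)] at h3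
  have hne : cos (2 * a) ≠ cos (π / M) := by
    rw [hc1, hc2]; intro h4; nlinarith
  have hk := K_closed M hM0 (2 * a) hne
  rw [hc1, hc2, hs2] at hk
  have hpi : π * √x = 2 * M * s M x := by unfold s; field_simp
  have hMa : (2 : ℝ) * M * a = M * (2 * a) := by ring
  rw [hMa, hpi]
  have hden : 2 * (M : ℝ) * s M x * (s M x ^ 2 / h ^ 2 - 1) ≠ 0 := by
    have : 0 < s M x ^ 2 / h ^ 2 - 1 := by
      have h3 : 1 < s M x ^ 2 / h ^ 2 := lt_of_lt_of_le hx hs
      linarith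
    positivity
  rw [eq_div_iff hden]
  have hh2 : h ≠ 0 := hh.ne'
  have h5 : 2 * (M : ℝ) * s M x * (s M x ^ 2 / h ^ 2 - 1) =
      2 * (M : ℝ) * s M x * (s M x ^ 2 - h ^ 2) / h ^ 2 := by field_simp
  rw [h5]
  have h6 : K M (2 * a) * (2 * M * s M x * (s M x ^ 2 - h ^ 2)) =
      -(sin (M * (2 * a)) * cos a) * h ^ 2 := by
    have h7 : s M x * (K M (2 * a) * (2 * M * s M x * (s M x ^ 2 - h ^ 2)) -
      (-(sin (M * (2 * a)) * cos a) * h ^ 2)) = 0 := by
      linear_combination (-1 / 4) * hk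
    rcases mul_eq_zero.1 h7 with h8 | h8
    · exact absurd h8 hspos.ne'
    · linarith
  rw [← mul_div_assoc, h6]
  field_simp

theorem QP_bound {M : ℕ} (hM : 2 ≤ M) {x : ℝ} (hx : 1 < x) (hxL : x ≤ L M) :
    |(QP M).eval x| ≤ |sin (2 * M * arcsin (s M x))| / (π * √x * (x - 1)) := by
  rw [QP_closed hM hx hxL, abs_div, abs_neg, abs_mul]
  have hs := s_gt_h hM hx.le
  have hx' : 0 < √x := sqrt_pos.2 (by linarith)
  have h1 : 0 < π * √x * (x - 1) := by
    have : 0 < x - 1 := by linarith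
    positivity
  have h2 : π * √x * (x - 1) ≤ π * √x * (s M x ^ 2 / sin (π / (2 * M)) ^ 2 - 1) := by
    apply mul_le_mul_of_nonneg_left (by linarith) (by positivity)
  rw [abs_of_pos (lt_of_lt_of_le h1 h2)]
  apply div_le_div₀ (abs_nonneg _) _ h1 h2
  exact mul_le_of_le_one_right (abs_nonneg _) (abs_cos_le_one _)

theorem QP_bound_inv {M : ℕ} (hM : 2 ≤ M) {x : ℝ} (hx : 2 ≤ x) (hxL : x ≤ L M) :
    |(QP M).eval x| ≤ 1 / x := by
  refine (QP_bound hM (by linarith) hxL).trans ?_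
  have hx' : 1 ≤ √x := by rw [one_le_sqrt]; linarith
  have h1 : x ≤ π * √x * (x - 1) := by
    have h3 := pi_gt_three
    have h4 : 3 * (x - 1) ≤ π * √x * (x - 1) := by
      apply mul_le_mul_of_nonneg_right _ (by linarith)
      nlinarith
    linarith
  apply div_le_div₀ (by norm_num) (abs_sin_le_one _) (by linarith) h1

end Pool.Agent.H30V
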