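import Pool.Agent.H30V.Poly

/-!
# An alternating quadrature formula
-/

namespace Pool.Agent.H30V

open Finset Real Polynomial

/-- alternating sum over the Chebyshev extremal nodes -/
noncomputable def Lam (M : ℕ) (f : ℕ → ℝ) : ℝ :=
  2 * ∑ v ∈ range M, (-1) ^ v * f v - f 0 + (-1) ^ M * f M

theorem Lam_add (M : ℕ) (f g : ℕ → ℝ) : Lam M (fun v => f v + g v) = Lam M f + Lam M g := by
  unfold Lam
  simp only [mul_add, sum_add_distrib]
  ring

theorem Lam_mul (M : ℕ) (c : ℝ) (f : ℕ → ℝ) : Lam M (fun v => c * f v) = c * Lam M f := by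
  unfold Lam
  have : ∀ v, (-1 : ℝ) ^ v * (c * f v) = c * ((-1) ^ v * f v) := fun v => by ring
  simp only [this, ← mul_sum]
  ring

theorem cos_nat_pi_add (v : ℕ) (x : ℝ) : cos (v * π + x) = (-1) ^ v * cos x := by
  rw [add_comm, cos_add_nat_mul_pi]

theorem Lam_cos (M : ℕ) (l : ℤ) (hl : l.natAbs < M) :
    Lam M (fun v => cos (l * (π * v / M))) = 0 := by
  have hM : 0 < M := by omega
  have hM' : (M : ℝ) ≠ 0 := by positivity
  set ψ : ℝ := π + l * π / M with hψ
  have hD := D_mul M ψ
  have h1 : ∀ v : ℕ, (-1) ^ v * cos (l * (π * v / M)) = cos (v * ψ) := by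
    intro v
    rw [← cos_nat_pi_add]
    congr 1
    rw [hψ]; ring
  have h2 : Lam M (fun v => cos (l * (π * v / M))) = D M ψ := by
    unfold Lam D
    rw [sum_congr rfl (fun v _ => h1 v), h1 M]
    simp
  have h3 : sin (M * ψ) = 0 := by
    have : (M : ℝ) * ψ = ((M : ℤ) + l : ℤ) * π := by
      rw [hψ]; push_cast; field_simp
    rw [this, sin_int_mul_pi]
  rw [h3, mul_zero] at hD
  rw [h2]
  rcases mul_eq_zero.1 hD with h | h
  · exfalso
    have h4 : cos ψ = 1 := by linarith
    rw [cos_eq_one_iff] at h4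
    obtain ⟨m, hm⟩ := h4
    rw [hψ] at hm
    have h5 : (m : ℝ) * (2 * M) = M + l := by
      have := pi_pos.ne'
      field_simp at hm
      linarith
    have h6 : m * (2 * M) = M + l := by exact_mod_cast h5
    have h7 : (0 : ℤ) < M + l := by omega
    have h8 : (M + l : ℤ) < 2 * M := by omega
    rw [← h6] at h7 h8
    have hM2 : (0 : ℤ) < 2 * M := by omega
    have h9 : 0 < m := by
      by_contra hm0
      nlinarith
    nlinarith
  · exact h

theorem Lam_pow_cos (M : ℕ) (k : ℕ) : ∀ (l : ℤ), l.natAbs + k < M →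
    Lam M (fun v => cos (π * v / M) ^ k * cos (l * (π * v / M))) = 0 := by
  induction k with
  | zero =>
    intro l hl
    simpa using Lam_cos M l (by omega)
  | succ k ih =>
    intro l hl
    have h1 : ∀ v : ℕ, cos (π * v / M) ^ (k + 1) * cos (l * (π * v / M)) =
        (1 / 2) * (cos (π * v / M) ^ k * cos (((l + 1 : ℤ) : ℝ) * (π * v / M))) +
        (1 / 2) * (cos (π * v / M) ^ k * cos (((l - 1 : ℤ) : ℝ) * (π * v / M))) := by
      intro v
      push_cast
      rw [add_mul, sub_mul, one_mul, cos_add, cos_sub]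
      ring
    simp only [h1]
    rw [Lam_add, Lam_mul, Lam_mul, ih (l + 1) (by omega), ih (l - 1) (by omega)]
    simp

theorem Lam_poly (M : ℕ) (P : ℝ[X]) (hP : P.natDegree < M) :
    Lam M (fun v => P.eval (cos (π * v / M))) = 0 := by
  have h1 : ∀ v : ℕ, P.eval (cos (π * v / M)) =
      ∑ k ∈ range M, P.coeff k * cos (π * v / M) ^ k := fun v => eval_eq_sum_range' hP _
  simp only [h1]
  have h2 : ∀ n ≤ M, Lam M (fun v => ∑ k ∈ range n, P.coeff k * cos (π * v / M) ^ k) = 0 := by
    intro n
    induction n with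
    | zero => intro _; simp [Lam]
    | succ n ih =>
      intro hn
      simp only [sum_range_succ]
      rw [Lam_add, ih (by omega), Lam_mul, zero_add]
      have := Lam_pow_cos M n 0 (by simp; omega)
      simp at this
      rw [this, mul_zero]
  exact h2 M le_rfl

/-- the node, shifted by `i` -/
noncomputable def node (M i v : ℕ) : ℝ := (L M - i) * (1 - cos (π * v / M)) / 2 + i

theorem quad (M i : ℕ) (hM : 0 < M) :
    2 * ∑ v ∈ range M, (-1) ^ v * (QP M).eval (node M i v) - (QP M).eval (i : ℝ) +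
      (-1) ^ M * (QP M).eval (L M) = 0 := by
  have hM' : (M : ℝ) ≠ 0 := by positivity
  set R : ℝ[X] := (QP M).comp (C ((L M - i) / 2 + i) - C ((L M - i) / 2) * X) with hR
  have hdeg : R.natDegree < M := by
    refine lt_of_le_of_lt natDegree_comp_le ?_
    have h2 : (C ((L M - i) / 2 + i) - C ((L M - i) / 2) * X : ℝ[X]).natDegree ≤ 1 := by
      refine (natDegree_sub_le _ _).trans ?_
      simp only [natDegree_C, zero_le, sup_of_le_right]
      exact (natDegree_C_mul_le _ _).trans natDegree_X_le
    calc (QP M).natDegree * _ ≤ (QP M).natDegree * 1 := Nat.mul_le_mul_left _ h2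
      _ < M := by rw [mul_one]; exact natDegree_QP M hM
  have h := Lam_poly M R hdeg
  have he : ∀ v : ℕ, R.eval (cos (π * v / M)) = (QP M).eval (node M i v) := by
    intro v
    rw [hR, eval_comp]
    congr 1
    simp [node]
    ring
  unfold Lam at h
  simp only [he] at h
  have h0 : node M i 0 = i := by simp [node]
  have hMM : node M i M = L M := by
    unfold node
    have : π * (M : ℝ) / M = π := by field_simp
    rw [this, cos_pi]; ring
  rw [h0, hMM] at h
  exact h

end Pool.Agent.H30V
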