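import Pool.Agent.H30V.Dual

/-!
# Squares: the discrete Chebyshev kernel at the end point
-/

namespace Pool.Agent.H30V

open Finset Polynomial

/-- backward difference -/
noncomputable def nab (P : ℝ[X]) : ℝ[X] := P - P.comp (X - C 1)

theorem natDegree_nab (P : ℝ[X]) : (nab P).natDegree ≤ P.natDegree - 1 := by
  unfold nab
  by_cases h0 : P.natDegree = 0
  · rw [natDegree_eq_zero] at h0
    obtain ⟨c, rfl⟩ := h0
    simp
  · have hP : P ≠ 0 := by rintro rfl; simp at h0
    have hd : (P.comp (X - C 1)).natDegree = P.natDegree := by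
      rw [natDegree_comp, natDegree_X_sub_C, mul_one]
    have hne : P.comp (X - C 1) ≠ 0 := by
      intro h; rw [h] at hd; simp at hd; omega
    have hdeg : P.degree = (P.comp (X - C 1)).degree := by
      rw [degree_eq_natDegree hP, degree_eq_natDegree hne, hd]
    have hlc : P.leadingCoeff = (P.comp (X - C 1)).leadingCoeff := by
      rw [leadingCoeff_comp (by rw [natDegree_X_sub_C]; norm_num), leadingCoeff_X_sub_C, one_pow, mul_one]
    have h1 := degree_sub_lt_left hdeg hP hlc
    by_cases hz : P - P.comp (X - C 1) = 0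
    · rw [hz]; simp
    · have h2 := natDegree_lt_natDegree hz h1
      omega

theorem natDegree_nab_iter (P : ℝ[X]) (k : ℕ) : (nab^[k] P).natDegree ≤ P.natDegree - k := by
  induction k with
  | zero => simp
  | succ k ih =>
    rw [Function.iterate_succ_apply']
    have := natDegree_nab (nab^[k] P)
    omega

theorem eval_nab_iter (P : ℝ[X]) (k : ℕ) : ∀ x : ℝ, (nab^[k] P).eval x =
    ∑ i ∈ range (k + 1), (-1 : ℝ) ^ i * (k.choose i : ℝ) * P.eval (x - i) := by
  have h1 : ∀ k : ℕ, (fun x : ℝ => (nab^[k] P).eval x) = fun x => (-1 : ℝ) ^ k *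
      ((fwdDiff (-1 : ℝ))^[k] (fun x => P.eval x) x) := by
    intro k
    induction k with
    | zero => simp
    | succ k ih =>
      funext x
      rw [Function.iterate_succ_apply', Function.iterate_succ_apply']
      unfold nab fwdDiff
      have h2 := congr_fun ih x
      have h3 := congr_fun ih (x - 1)
      have h4 : x + -1 = x - 1 := by ring
      unfold nab fwdDiff at h2 h3
      simp only [eval_sub, eval_comp, eval_X, eval_C]
      rw [h2, h3, h4, pow_succ]
      ring
  intro x
  have h2 := congr_fun (h1 k) x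
  rw [h2, fwdDiff_iter_eq_sum_shift, mul_sum]
  apply sum_congr rfl
  intro i hi
  have hi : i ≤ k := by have := mem_range.1 hi; omega
  obtain ⟨e, rfl⟩ : ∃ e, k = i + e := ⟨k - i, by omega⟩
  rw [zsmul_eq_mul]
  have h3 : x + i • (-1 : ℝ) = x - i := by rw [nsmul_eq_mul]; ring
  rw [h3]
  push_cast
  have h4 : i + e - i = e := by omega
  rw [h4, pow_add]
  have h5 : (-1 : ℝ) ^ e * (-1) ^ e = 1 := by rw [← mul_pow]; simp
  linear_combination ((-1 : ℝ) ^ i * ((i + e).choose i : ℝ) * P.eval (x - i)) * h5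

/-- the weight polynomial -/
noncomputable def U (n d : ℕ) : ℝ[X] :=
  (∏ i ∈ range (d + 1), (X + C (i : ℝ))) * ∏ i ∈ range d, (C (n : ℝ) - X - C (i : ℝ))

theorem natDegree_U (n d : ℕ) : (U n d).natDegree ≤ 2 * d + 1 := by
  unfold U
  refine natDegree_mul_le.trans ?_
  have h1 : (∏ i ∈ range (d + 1), (X + C (i : ℝ))).natDegree ≤ d + 1 := by
    refine (natDegree_prod_le _ _).trans ?_
    calc ∑ i ∈ range (d + 1), (X + C (i : ℝ)).natDegree ≤ ∑ i ∈ range (d + 1), 1 := by
          apply sum_le_sum; intro i _; rw [natDegree_X_add_C]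
      _ = d + 1 := by simp
  have h2 : (∏ i ∈ range d, (C (n : ℝ) - X - C (i : ℝ))).natDegree ≤ d := by
    refine (natDegree_prod_le _ _).trans ?_
    calc ∑ i ∈ range d, (C (n : ℝ) - X - C (i : ℝ)).natDegree ≤ ∑ i ∈ range d, 1 := by
          apply sum_le_sum; intro i _
          refine (natDegree_sub_le _ _).trans ?_
          rw [natDegree_C, Nat.max_zero]
          refine (natDegree_sub_le _ _).trans ?_
          rw [natDegree_C, natDegree_X]; simp
      _ = d := by simp
  omega

theorem U_eval (n d : ℕ) (x : ℝ) : (U n d).eval x =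
    (∏ i ∈ range (d + 1), (x + i)) * ∏ i ∈ range d, ((n : ℝ) - x - i) := by
  unfold U
  rw [eval_mul, eval_prod, eval_prod]
  simp

theorem U_neg (n d i : ℕ) (hi : i ≤ d) : (U n d).eval (-(i : ℝ)) = 0 := by
  rw [U_eval, prod_eq_zero (i := i) (mem_range.2 (by omega)) (by ring), zero_mul]

theorem U_top (n d m : ℕ) (h1 : n < m + d) (h2 : m ≤ n) : (U n d).eval (m : ℝ) = 0 := by
  rw [U_eval]
  have : (∏ i ∈ range d, ((n : ℝ) - m - i)) = 0 := by
    apply prod_eq_zero (i := n - m) (mem_range.2 (by omega))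
    rw [Nat.cast_sub h2]; ring
  rw [this, mul_zero]

/-- the transposed difference -/
theorem sum_V (n d : ℕ) (hd : d ≤ n) (f : ℕ → ℝ) :
    ∑ j ∈ range (n + 1), (nab^[d] (U n d)).eval (j : ℝ) * f j =
      ∑ m ∈ range (n + 1), (U n d).eval (m : ℝ) *
        ∑ i ∈ range (d + 1), (-1 : ℝ) ^ i * (d.choose i : ℝ) * f (m + i) := by
  simp only [eval_nab_iter, sum_mul, mul_sum]
  rw [sum_comm, sum_comm (s := range (n + 1)) (t := range (d + 1))]
  apply sum_congr rfl
  intro i hi
  have hi : i ≤ d := by have := mem_range.1 hi; omega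
  obtain ⟨N, hN⟩ : ∃ N, n + 1 = i + N := ⟨n + 1 - i, by omega⟩
  have h1 : ∑ j ∈ range (n + 1), (-1 : ℝ) ^ i * (d.choose i : ℝ) * (U n d).eval ((j : ℝ) - i) * f j =
      ∑ m ∈ range N, (-1 : ℝ) ^ i * (d.choose i : ℝ) * (U n d).eval (m : ℝ) * f (m + i) := by
    rw [hN, Finset.sum_range_add]
    have h2 : ∑ j ∈ range i, (-1 : ℝ) ^ i * (d.choose i : ℝ) * (U n d).eval ((j : ℝ) - i) * f j = 0 := by
      apply sum_eq_zero
      intro j hj
      have hj := mem_range.1 hj
      have h3 : (j : ℝ) - i = -((i - j : ℕ) : ℝ) := by rw [Nat.cast_sub hj.le]; ring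
      rw [h3, U_neg n d (i - j) (by omega)]; ring
    rw [h2, zero_add]
    apply sum_congr rfl
    intro m _
    have h3 : ((i + m : ℕ) : ℝ) - i = m := by push_cast; ring
    rw [h3, add_comm i m]
  rw [h1]
  have h2 : ∑ m ∈ range (n + 1), (U n d).eval (m : ℝ) * ((-1 : ℝ) ^ i * (d.choose i : ℝ) * f (m + i)) =
      ∑ m ∈ range N, (U n d).eval (m : ℝ) * ((-1 : ℝ) ^ i * (d.choose i : ℝ) * f (m + i)) := by
    symm
    apply sum_subset
    · intro m hm
      rw [mem_range] at hm ⊢
      omega
    · intro m hm hm'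
      rw [mem_range] at hm hm'
      rw [U_top n d m (by omega) (by omega), zero_mul]
  rw [h2]
  apply sum_congr rfl
  intro m _
  ring

end Pool.Agent.H30V
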