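import Pool.Agent.H30V.Sq

/-!
# Squares: evaluation of the sums
-/

namespace Pool.Agent.H30V

open Finset Polynomial

theorem inner_poly (d m : ℕ) (S : ℝ[X]) (hS : S.natDegree < d) :
    ∑ i ∈ range (d + 1), (-1 : ℝ) ^ i * (d.choose i : ℝ) * S.eval (((m + i : ℕ) : ℝ)) = 0 := by
  have h1 := congr_fun (Polynomial.fwdDiff_iter_eq_zero_of_degree_lt hS) (m : ℝ)
  rw [fwdDiff_iter_eq_sum_shift] at h1
  have h2 : ∑ i ∈ range (d + 1), (-1 : ℝ) ^ i * (d.choose i : ℝ) * S.eval (((m + i : ℕ) : ℝ)) =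
      (-1 : ℝ) ^ d * ∑ k ∈ range (d + 1), ((-1 : ℤ) ^ (d - k) * (d.choose k : ℤ)) •
        S.eval ((m : ℝ) + k • (1 : ℝ)) := by
    rw [mul_sum]
    apply sum_congr rfl
    intro i hi
    have hi : i ≤ d := by have := mem_range.1 hi; omega
    obtain ⟨e, rfl⟩ : ∃ e, d = i + e := ⟨d - i, by omega⟩
    rw [zsmul_eq_mul, nsmul_eq_mul, mul_one]
    push_cast
    have h4 : i + e - i = e := by omega
    rw [h4, pow_add]
    have h5 : (-1 : ℝ) ^ e * (-1) ^ e = 1 := by rw [← mul_pow]; simp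
    linear_combination (-((-1 : ℝ) ^ i * ((i + e).choose i : ℝ) * S.eval ((m : ℝ) + i))) * h5
  rw [h2, h1]
  simp

theorem fwdDiff_inv (d : ℕ) : ∀ m : ℕ, 0 < m →
    (fwdDiff (1 : ℝ))^[d] (fun x : ℝ => 1 / x) (m : ℝ) =
      (-1) ^ d * (d.factorial : ℝ) / ∏ i ∈ range (d + 1), ((m : ℝ) + i) := by
  induction d with
  | zero => intro m hm; simp
  | succ d ih =>
    intro m hm
    rw [Function.iterate_succ_apply']
    unfold fwdDiff
    have h1 := ih m hm
    have h2 := ih (m + 1) (by omega)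
    unfold fwdDiff at h1 h2
    push_cast at h2
    rw [h1, h2]
    have e1 : ∏ i ∈ range (d + 1 + 1), ((m : ℝ) + i) =
        (∏ i ∈ range (d + 1), ((m : ℝ) + i)) * (m + d + 1) := by
      rw [prod_range_succ]; push_cast; ring
    have e2 : ∏ i ∈ range (d + 1 + 1), ((m : ℝ) + i) =
        (∏ i ∈ range (d + 1), ((m : ℝ) + 1 + i)) * m := by
      rw [prod_range_succ']
      simp only [Nat.cast_zero, add_zero]
      congr 1
      apply prod_congr rfl
      intro i _
      push_cast; ring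
    have hm' : (0 : ℝ) < m := by exact_mod_cast hm
    have p1 : 0 < ∏ i ∈ range (d + 1), ((m : ℝ) + i) := prod_pos fun i _ => by positivity
    have p2 : 0 < ∏ i ∈ range (d + 1), ((m : ℝ) + 1 + i) := prod_pos fun i _ => by positivity
    have e3 : (∏ i ∈ range (d + 1), ((m : ℝ) + 1 + i)) * m =
        (∏ i ∈ range (d + 1), ((m : ℝ) + i)) * (m + d + 1) := by rw [← e2, e1]
    rw [e1]
    generalize (∏ i ∈ range (d + 1), ((m : ℝ) + i)) = A at *
    generalize (∏ i ∈ range (d + 1), ((m : ℝ) + 1 + i)) = B at *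
    have hmd : (0 : ℝ) < m + d + 1 := by positivity
    have hB : B = A * (m + d + 1) / m := by
      rw [eq_div_iff hm'.ne']; exact e3
    rw [hB, Nat.factorial_succ, pow_succ]
    push_cast
    field_simp
    ring

theorem inner_inv (d m : ℕ) (hm : 0 < m) :
    ∑ i ∈ range (d + 1), (-1 : ℝ) ^ i * (d.choose i : ℝ) * (1 / ((m + i : ℕ) : ℝ)) =
      (d.factorial : ℝ) / ∏ i ∈ range (d + 1), ((m : ℝ) + i) := by
  have h1 := fwdDiff_inv d m hm
  rw [fwdDiff_iter_eq_sum_shift] at h1
  have h2 : ∑ i ∈ range (d + 1), (-1 : ℝ) ^ i * (d.choose i : ℝ) * (1 / ((m + i : ℕ) : ℝ)) =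
      (-1 : ℝ) ^ d * ∑ k ∈ range (d + 1), ((-1 : ℤ) ^ (d - k) * (d.choose k : ℤ)) •
        (1 / ((m : ℝ) + k • (1 : ℝ))) := by
    rw [mul_sum]
    apply sum_congr rfl
    intro i hi
    have hi : i ≤ d := by have := mem_range.1 hi; omega
    obtain ⟨e, rfl⟩ : ∃ e, d = i + e := ⟨d - i, by omega⟩
    rw [zsmul_eq_mul, nsmul_eq_mul, mul_one]
    push_cast
    have h4 : i + e - i = e := by omega
    rw [h4, pow_add]
    have h5 : (-1 : ℝ) ^ e * (-1) ^ e = 1 := by rw [← mul_pow]; simp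
    linear_combination (-((-1 : ℝ) ^ i * ((i + e).choose i : ℝ) * (1 / ((m : ℝ) + i)))) * h5
  rw [h2, h1, mul_div_assoc, ← mul_assoc, ← mul_pow]
  simp

theorem prod_desc (d k : ℕ) : ∏ i ∈ range d, ((k : ℝ) - i) = (k.descFactorial d : ℝ) := by
  rw [← descPochhammer_eval_eq_descFactorial, descPochhammer_eval_eq_prod_range]

theorem hockey (d n : ℕ) : (d + 1) * ∑ k ∈ range n, k.descFactorial d = n.descFactorial (d + 1) := by
  induction n with
  | zero => simp
  | succ n ih =>
    rw [sum_range_succ, mul_add, ih, Nat.succ_descFactorial_succ, Nat.descFactorial_succ]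
    rcases Nat.lt_or_ge n d with h | h
    · rw [Nat.descFactorial_of_lt h]; simp
    · obtain ⟨e, rfl⟩ : ∃ e, n = d + e := ⟨n - d, by omega⟩
      have : d + e - d = e := by omega
      rw [this]; ring

/-- `∑_{j ≥ 1} V(j) / j` -/
theorem sum_inv (n d : ℕ) (hd : d ≤ n) :
    ∑ j ∈ range n, (nab^[d] (U n d)).eval ((j : ℝ) + 1) * (1 / ((j : ℝ) + 1)) =
      (d.factorial : ℝ) * (n.descFactorial (d + 1) : ℝ) / (d + 1) := by
  have h := sum_V n d hd (fun j => 1 / (j : ℝ))
  rw [sum_range_succ'] at h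
  simp only [Nat.cast_zero, div_zero, mul_zero, add_zero] at h
  have h1 : ∑ j ∈ range n, (nab^[d] (U n d)).eval ((j : ℝ) + 1) * (1 / ((j : ℝ) + 1)) =
      ∑ j ∈ range n, (nab^[d] (U n d)).eval (((j + 1 : ℕ) : ℝ)) * (1 / (((j + 1 : ℕ) : ℝ))) := by
    apply sum_congr rfl; intro j _; push_cast; rfl
  rw [h1, h, sum_range_succ']
  have h0 : (U n d).eval (((0 : ℕ) : ℝ)) = 0 := by
    have := U_neg n d 0 (by omega)
    simpa using this
  rw [h0, zero_mul, add_zero]
  have h2 : ∀ m ∈ range n, (U n d).eval (((m + 1 : ℕ) : ℝ)) *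
      ∑ i ∈ range (d + 1), (-1 : ℝ) ^ i * (d.choose i : ℝ) * (1 / (((m + 1 + i : ℕ) : ℝ))) =
      (d.factorial : ℝ) * ((n - 1 - m).descFactorial d : ℝ) := by
    intro m hm
    have hm := mem_range.1 hm
    rw [inner_inv d (m + 1) (by omega), U_eval]
    have h3 : (n : ℝ) - ((m + 1 : ℕ) : ℝ) = ((n - 1 - m : ℕ) : ℝ) := by
      rw [Nat.cast_sub (by omega), Nat.cast_sub (by omega)]; push_cast; ring
    rw [h3, prod_desc]
    have p1 : ∏ i ∈ range (d + 1), (((m + 1 : ℕ) : ℝ) + i) ≠ 0 := by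
      apply ne_of_gt
      exact prod_pos fun i _ => by positivity
    field_simp
  rw [sum_congr rfl h2, ← mul_sum]
  have h3 : ∑ m ∈ range n, ((n - 1 - m).descFactorial d : ℝ) =
      ∑ m ∈ range n, (m.descFactorial d : ℝ) := by
    exact sum_range_reflect (fun m => (m.descFactorial d : ℝ)) n
  rw [h3]
  have h4 := hockey d n
  have h5 : ((d : ℝ) + 1) * ∑ k ∈ range n, (k.descFactorial d : ℝ) = (n.descFactorial (d + 1) : ℝ) := by
    exact_mod_cast h4
  rw [← h5]
  field_simp

theorem prod_erase_fac (i e : ℕ) :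
    ∏ k ∈ (range (i + e + 1)).erase i, ((k : ℝ) - i) = (-1) ^ i * (i.factorial : ℝ) * (e.factorial : ℝ) := by
  induction e with
  | zero =>
    have h1 : (range (i + 0 + 1)).erase i = range i := by
      ext k; simp only [mem_erase, mem_range]; omega
    rw [h1]
    have h2 : ∀ i : ℕ, ∏ k ∈ range i, ((k : ℝ) - i) = (-1) ^ i * (i.factorial : ℝ) := by
      intro i
      have h3 : ∏ k ∈ range i, ((k : ℝ) - i) = ∏ k ∈ range i, (-1 : ℝ) * ((k : ℝ) + 1) := by
        rw [← prod_range_reflect]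
        apply prod_congr rfl
        intro k hk
        have hk := mem_range.1 hk
        rw [Nat.cast_sub (by omega), Nat.cast_sub (by omega)]
        push_cast; ring
      rw [h3, prod_mul_distrib, prod_const, card_range]
      congr 1
      rw [← prod_range_add_one_eq_factorial]
      push_cast
      rfl
    rw [h2]; simp
  | succ e ih =>
    have h1 : (range (i + (e + 1) + 1)).erase i = insert (i + e + 1) ((range (i + e + 1)).erase i) := by
      ext k; simp only [mem_erase, mem_range, mem_insert]; omega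
    rw [h1, prod_insert (by simp), ih, Nat.factorial_succ]
    push_cast; ring

theorem U_deriv (n d i : ℕ) (hi : i ≤ d) : (derivative (U n d)).eval (-(i : ℝ)) =
    (-1) ^ i * (i.factorial : ℝ) * ((d - i).factorial : ℝ) * ((n + i).descFactorial d : ℝ) := by
  unfold U
  rw [← mul_prod_erase (range (d + 1)) _ (mem_range.2 (by omega : i < d + 1)), mul_assoc,
    derivative_mul]
  simp only [derivative_add, derivative_X, derivative_C, add_zero, one_mul, eval_add, eval_mul,
    eval_X, eval_C, neg_add_cancel, zero_mul, add_zero, eval_prod, eval_sub]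
  have h1 : ∏ k ∈ (range (d + 1)).erase i, (-(i : ℝ) + k) =
      (-1) ^ i * (i.factorial : ℝ) * ((d - i).factorial : ℝ) := by
    obtain ⟨e, rfl⟩ : ∃ e, d = i + e := ⟨d - i, by omega⟩
    have h2 : i + e - i = e := by omega
    rw [h2, ← prod_erase_fac i e]
    apply prod_congr rfl
    intro k _; ring
  rw [h1]
  congr 1
  rw [← prod_desc]
  apply prod_congr rfl
  intro k _
  push_cast; ring

/-- the value of the derivative of `V` at zero -/
theorem V_deriv (n d : ℕ) : (derivative (nab^[d] (U n d))).eval 0 =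
    (d.factorial : ℝ) * (((n + (d + 1)).descFactorial (d + 1) : ℝ) - (n.descFactorial (d + 1) : ℝ)) /
      (d + 1) := by
  have h1 : nab^[d] (U n d) = ∑ i ∈ range (d + 1), C ((-1 : ℝ) ^ i * (d.choose i : ℝ)) *
      (U n d).comp (X - C (i : ℝ)) := by
    apply Polynomial.funext
    intro x
    rw [eval_nab_iter, eval_finsetSum]
    apply sum_congr rfl
    intro i _
    rw [eval_mul, eval_C, eval_comp]
    simp
  rw [h1, derivative_sum, eval_finsetSum]
  have h2 : ∀ i ∈ range (d + 1), (derivative (C ((-1 : ℝ) ^ i * (d.choose i : ℝ)) *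
      (U n d).comp (X - C (i : ℝ)))).eval 0 = (d.factorial : ℝ) * ((n + i).descFactorial d : ℝ) := by
    intro i hi
    have hi : i ≤ d := by have := mem_range.1 hi; omega
    rw [derivative_C_mul, derivative_comp, derivative_X_sub_C, one_mul, eval_mul, eval_C, eval_comp]
    have e1 : eval 0 (X - C (i : ℝ)) = -(i : ℝ) := by simp
    rw [e1, U_deriv n d i hi]
    have e2 : ((-1 : ℝ) ^ i) * ((-1 : ℝ) ^ i) = 1 := by rw [← mul_pow]; simp
    have e3 : ((d.choose i : ℝ)) * (i.factorial : ℝ) * ((d - i).factorial : ℝ) = (d.factorial : ℝ) := by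
      exact_mod_cast Nat.choose_mul_factorial_mul_factorial hi
    rw [← e3]
    linear_combination ((d.choose i : ℝ) * (i.factorial : ℝ) * ((d - i).factorial : ℝ) *
      ((n + i).descFactorial d : ℝ)) * e2
  rw [sum_congr rfl h2, ← mul_sum]
  have h3 := hockey d n
  have h4 := hockey d (n + (d + 1))
  rw [sum_range_add, mul_add, h3] at h4
  have h5 : (n.descFactorial (d + 1) : ℝ) + ((d : ℝ) + 1) *
      ∑ i ∈ range (d + 1), ((n + i).descFactorial d : ℝ) = ((n + (d + 1)).descFactorial (d + 1) : ℝ) := by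
    exact_mod_cast h4
  rw [← h5]
  field_simp
  ring

/-- the criterion with squares -/
theorem sq_criterion (n d : ℕ) (hd1 : 1 ≤ d) (hd : d ≤ n)
    (h : 2 * n.descFactorial (d + 1) < (n + (d + 1)).descFactorial (d + 1))
    (p : ℂ[X]) (hp : p.natDegree ≤ n) (h0 : ‖p.coeff 0‖ = 1) (h1 : ∀ j, ‖p.coeff j‖ ≤ 1) :
    p.rootMultiplicity 1 ≤ 2 * d := by
  set V := nab^[d] (U n d) with hV
  have hV0 : V.eval 0 = 0 := by
    rw [hV, eval_nab_iter]
    apply sum_eq_zero
    intro i hi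
    have hi : i ≤ d := by have := mem_range.1 hi; omega
    rw [zero_sub, U_neg n d i hi, mul_zero]
  have hVdvd : X ∣ V := by
    rw [X_dvd_iff, coeff_zero_eq_eval_zero, hV0]
  obtain ⟨R, hR⟩ := hVdvd
  have hVdeg : V.natDegree ≤ d + 1 := by
    have h2 := natDegree_nab_iter (U n d) d
    have h3 := natDegree_U n d
    rw [hV]
    omega
  have hRdeg : R.natDegree ≤ d := by
    by_cases hR0 : R = 0
    · rw [hR0]; simp
    · rw [hR, natDegree_X_mul hR0] at hVdeg
      omega
  have hR0 : R.eval 0 = (d.factorial : ℝ) *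
      (((n + (d + 1)).descFactorial (d + 1) : ℝ) - (n.descFactorial (d + 1) : ℝ)) / (d + 1) := by
    rw [← V_deriv, ← hV, hR, derivative_mul]
    simp
  have hVj : ∀ j : ℕ, V.eval ((j : ℝ) + 1) = ((j : ℝ) + 1) * R.eval ((j : ℝ) + 1) := by
    intro j; rw [hR]; simp
  have hc : ∑ j ∈ range n, R.eval ((j : ℝ) + 1) =
      (d.factorial : ℝ) * (n.descFactorial (d + 1) : ℝ) / (d + 1) := by
    rw [← sum_inv n d hd, ← hV]
    apply sum_congr rfl
    intro j _
    rw [hVj]
    have : (0 : ℝ) < (j : ℝ) + 1 := by positivity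
    field_simp
  set S := R.divX with hS
  have hSdeg : S.natDegree < d := by
    rw [hS, natDegree_divX_eq_natDegree_tsub_one]; omega
  have hRS : ∀ x : ℝ, R.eval x = R.eval 0 + x * S.eval x := by
    intro x
    have h2 := divX_mul_X_add R
    have h3 := congrArg (eval x) h2
    rw [eval_add, eval_mul, eval_X, eval_C, coeff_zero_eq_eval_zero] at h3
    rw [← h3, hS]; ring
  have horth : ∑ j ∈ range n, V.eval ((j : ℝ) + 1) * S.eval ((j : ℝ) + 1) = 0 := by
    have h2 := sum_V n d hd (fun j => S.eval (j : ℝ))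
    rw [← hV, sum_range_succ'] at h2
    have h3 : V.eval (((0 : ℕ) : ℝ)) = 0 := by simpa using hV0
    rw [h3, zero_mul, add_zero] at h2
    have h4 : ∑ j ∈ range n, V.eval ((j : ℝ) + 1) * S.eval ((j : ℝ) + 1) =
        ∑ j ∈ range n, V.eval (((j + 1 : ℕ) : ℝ)) * S.eval (((j + 1 : ℕ) : ℝ)) := by
      apply sum_congr rfl; intro j _; push_cast; rfl
    rw [h4, h2]
    apply sum_eq_zero
    intro m _
    rw [inner_poly d m S hSdeg, mul_zero]
  have hsq : ∑ j ∈ range n, (R.eval ((j : ℝ) + 1)) ^ 2 =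
      R.eval 0 * ((d.factorial : ℝ) * (n.descFactorial (d + 1) : ℝ) / (d + 1)) := by
    have h2 : ∀ j ∈ range n, (R.eval ((j : ℝ) + 1)) ^ 2 =
        R.eval 0 * R.eval ((j : ℝ) + 1) + V.eval ((j : ℝ) + 1) * S.eval ((j : ℝ) + 1) := by
      intro j _
      rw [hVj j]
      have h3 := hRS ((j : ℝ) + 1)
      calc (R.eval ((j : ℝ) + 1)) ^ 2 = R.eval ((j : ℝ) + 1) * R.eval ((j : ℝ) + 1) := by ring
        _ = R.eval ((j : ℝ) + 1) * (R.eval 0 + ((j : ℝ) + 1) * S.eval ((j : ℝ) + 1)) := by rw [← h3]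
        _ = _ := by ring
    rw [sum_congr rfl h2, sum_add_distrib, ← mul_sum, hc, horth, add_zero]
  have hcR : (d.factorial : ℝ) * (n.descFactorial (d + 1) : ℝ) / (d + 1) < R.eval 0 := by
    rw [hR0]
    apply div_lt_div_of_pos_right _ (by positivity)
    apply mul_lt_mul_of_pos_left _ (by exact_mod_cast Nat.factorial_pos d)
    have : 2 * (n.descFactorial (d + 1) : ℝ) < ((n + (d + 1)).descFactorial (d + 1) : ℝ) := by
      exact_mod_cast h
    linarith
  have hcpos : 0 ≤ (d.factorial : ℝ) * (n.descFactorial (d + 1) : ℝ) / (d + 1) := by positivity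
  have hRpos : 0 < R.eval 0 := by linarith
  have hfin := mult_le n (R ^ 2) ?_ p hp h0 h1
  · refine hfin.trans ?_
    refine natDegree_pow_le.trans ?_
    omega
  · have e1 : ∀ j ∈ range n, |(R ^ 2).eval ((j : ℝ) + 1)| = (R.eval ((j : ℝ) + 1)) ^ 2 := by
      intro j _
      rw [eval_pow, abs_of_nonneg (sq_nonneg _)]
    rw [sum_congr rfl e1, hsq, eval_pow, abs_of_nonneg (sq_nonneg _), sq]
    exact mul_lt_mul_of_pos_left hcR hRpos

end Pool.Agent.H30V
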