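import Pool.Agent.H30V.Sq2
import Pool.Agent.H30V.Choice

/-!
# The explicit bounds
-/

namespace Pool.Agent.H30V

open Finset Real Polynomial

theorem desc_lt (n m : ℕ) (hm : 1 ≤ m) (hmn : m ≤ n)
    (h : ((n : ℝ) + m) * Real.log 2 < (m : ℝ) ^ 2) :
    2 * n.descFactorial m < (n + m).descFactorial m := by
  have hm' : (1 : ℝ) ≤ m := by exact_mod_cast hm
  have hmn' : (m : ℝ) ≤ n := by exact_mod_cast hmn
  have hnm : (0 : ℝ) < n + m := by linarith
  set E := Real.exp (-(m / ((n : ℝ) + m))) with hE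
  have h1 : ∏ i ∈ range m, ((n : ℝ) - i) ≤ ∏ i ∈ range m, (E * (((n + m : ℕ) : ℝ) - i)) := by
    apply prod_le_prod
    · intro i hi
      have : (i : ℝ) ≤ m := by exact_mod_cast (mem_range.1 hi).le
      linarith
    · intro i hi
      have hi1 : (i : ℝ) + 1 ≤ m := by exact_mod_cast mem_range.1 hi
      have hi0 : (0 : ℝ) ≤ i := Nat.cast_nonneg i
      have hp : (0 : ℝ) < n + m - i := by linarith
      push_cast
      have h2 : 1 - m / ((n : ℝ) + m - i) ≤ E := by
        have h3 := Real.add_one_le_exp (-(m / ((n : ℝ) + m)))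
        have h4 : (m : ℝ) / (n + m) ≤ m / (n + m - i) := by
          apply div_le_div_of_nonneg_left (by linarith) hp (by linarith)
        linarith
      calc (n : ℝ) - i = (1 - m / ((n : ℝ) + m - i)) * (n + m - i) := by field_simp; ring
        _ ≤ E * (n + m - i) := mul_le_mul_of_nonneg_right h2 hp.le
  rw [prod_mul_distrib, prod_const, card_range, prod_desc, prod_desc] at h1
  have h2 : E ^ m < 1 / 2 := by
    rw [hE, ← Real.exp_nat_mul]
    have h3 : (m : ℝ) * -(m / ((n : ℝ) + m)) < -Real.log 2 := by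
      have : (m : ℝ) * -(m / ((n : ℝ) + m)) = -((m : ℝ) ^ 2 / (n + m)) := by ring
      rw [this, neg_lt_neg_iff, lt_div_iff₀ hnm]
      linarith
    calc Real.exp ((m : ℝ) * -(m / ((n : ℝ) + m))) < Real.exp (-Real.log 2) := Real.exp_lt_exp.2 h3
      _ = 1 / 2 := by rw [Real.exp_neg, Real.exp_log (by norm_num)]; norm_num
  have h3 : (0 : ℝ) < ((n + m).descFactorial m : ℝ) := by
    exact_mod_cast Nat.pos_of_ne_zero (by
      rw [Ne, Nat.descFactorial_eq_zero_iff_lt]; omega)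
  have h4 : 2 * (n.descFactorial m : ℝ) < ((n + m).descFactorial m : ℝ) := by
    have := mul_lt_mul_of_pos_right h2 h3
    linarith
  exact_mod_cast h4

theorem order_le_natDegree (p : ℂ[X]) (hp : p ≠ 0) : p.rootMultiplicity 1 ≤ p.natDegree := by
  have h := natDegree_le_of_dvd (pow_rootMultiplicity_dvd p 1) hp
  rwa [natDegree_pow, natDegree_X_sub_C, mul_one] at h

theorem ne_zero_of_coeff (p : ℂ[X]) (h0 : ‖p.coeff 0‖ = 1) : p ≠ 0 := by
  rintro rfl
  simp at h0

theorem order_lt_sq (n : ℕ) (hn : 1 ≤ n) (p : ℂ[X]) (hp : p.natDegree ≤ n)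
    (h0 : ‖p.coeff 0‖ = 1) (h1 : ∀ j, ‖p.coeff j‖ ≤ 1) :
    (p.rootMultiplicity 1 : ℝ) < 2 * √(n * Real.log 2) + 1 := by
  have hn' : (1 : ℝ) ≤ n := by exact_mod_cast hn
  have hl1 := Real.log_two_gt_d9
  have hl2 := Real.log_two_lt_d9
  set s := √(n * Real.log 2) with hs
  have hs2 : s ^ 2 = n * Real.log 2 := sq_sqrt (by positivity)
  have hs0 : 0 ≤ s := sqrt_nonneg _
  have hs1 : 0.8 ≤ s := by
    by_contra h
    push Not at h
    nlinarith
  obtain ⟨m, hm1, hm2⟩ : ∃ m : ℕ, s + 1 / 2 ≤ m ∧ (m : ℝ) < s + 3 / 2 :=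
    ⟨⌈s + 1 / 2⌉₊, Nat.le_ceil _, by
      have := Nat.ceil_lt_add_one (a := s + 1 / 2) (by positivity)
      linarith⟩
  have hm : 2 ≤ m := by
    have : (1 : ℝ) < m := by linarith
    exact_mod_cast this
  have hfin : p.rootMultiplicity 1 ≤ 2 * (m - 1) := by
    rcases Nat.lt_or_ge n m with h | h
    · have := order_le_natDegree p (ne_zero_of_coeff p h0)
      omega
    · have hmain : ((n : ℝ) + m) * Real.log 2 < (m : ℝ) ^ 2 := by
        rw [add_mul, ← hs2]
        nlinarith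
      have h2 := desc_lt n m (by omega) h hmain
      obtain ⟨d, rfl⟩ : ∃ d, m = d + 1 := ⟨m - 1, by omega⟩
      have := sq_criterion n d (by omega) (by omega) h2 p hp h0 h1
      simpa using this
  have h2 : (p.rootMultiplicity 1 : ℝ) ≤ ((2 * (m - 1) : ℕ) : ℝ) := by exact_mod_cast hfin
  rw [Nat.cast_mul, Nat.cast_sub (by omega)] at h2
  push_cast at h2
  linarith

theorem order_all (n : ℕ) (hn : 1 ≤ n) (p : ℂ[X]) (hp : p.natDegree ≤ n)
    (h0 : ‖p.coeff 0‖ = 1) (h1 : ∀ j, ‖p.coeff j‖ ≤ 1) :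
    (p.rootMultiplicity 1 : ℝ) ≤ π / 2 * √(n : ℝ) + 4 * (n : ℝ) ^ (1 / 3 : ℝ) := by
  rcases Nat.lt_or_ge n 4096 with h | h
  · have hn' : (1 : ℝ) ≤ n := by exact_mod_cast hn
    have hn0 : (0 : ℝ) ≤ n := by linarith
    have hn4 : (n : ℝ) < 4096 := by exact_mod_cast h
    set t : ℝ := (n : ℝ) ^ (1 / 6 : ℝ) with ht
    have ht0 : 0 < t := rpow_pos_of_pos (by linarith) _
    have ht6 : t ^ 6 = n := by
      rw [ht, ← rpow_natCast, ← rpow_mul hn0]; norm_num
    have ht3 : t ^ 3 = √(n : ℝ) := by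
      rw [← ht6]
      have : t ^ 6 = (t ^ 3) ^ 2 := by ring
      rw [this, sqrt_sq (by positivity)]
    have ht2 : t ^ 2 = (n : ℝ) ^ (1 / 3 : ℝ) := by
      rw [ht, ← rpow_natCast, ← rpow_mul hn0]; norm_num
    have ht4 : t < 4 := by
      by_contra h
      push Not at h
      have : (4 : ℝ) ^ 6 ≤ t ^ 6 := pow_le_pow_left₀ (by norm_num) h 6
      rw [ht6] at this
      linarith
    have ht1 : 1 ≤ t := by
      by_contra h
      push Not at h
      have : t ^ 6 < 1 := pow_lt_one₀ ht0.le h (by norm_num)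
      linarith
    have h2 := order_lt_sq n hn p hp h0 h1
    have hl2 := Real.log_two_lt_d9
    have h3 : √(n * Real.log 2) ≤ 0.8326 * t ^ 3 := by
      rw [sqrt_le_left (by positivity), mul_pow, ht3, sq_sqrt hn0]
      nlinarith
    rw [← ht2, ← ht3]
    have hpi := pi_gt_d2
    nlinarith [pow_pos ht0 2, pow_pos ht0 3]
  · exact order_large n h p hp h0 h1

end Pool.Agent.H30V
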