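import Mathlib
import Pool.Agent.H30V.MB

/-!
# The upper bound `2 √(n log 2) + 1` for the order of vanishing at `1`

The known bound is `(16 / 7) √n + 4`.  We use the squares `Q = R ^ 2`, where `R` is the reproducing kernel
at `0` of the polynomials of degree `≤ d` on `{0, ..., n}` (discrete Chebyshev polynomials), given by
the Rodrigues type formula `x R(x) = ∇ ^ d [x (x + 1) ... (x + d) (n - x) ... (n - x - d + 1)]`; then
`∑_{j = 1}^n R(j) ^ 2 < R(0) ^ 2` if and only if `2 binom(2n, n - d - 1) < binom(2n, n)`.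
-/

set_option autoImplicit false

open Polynomial

namespace Pool.Agent.H30V.SquareBoundOld

/-- `F_n`: integer polynomials of degree at most `n` with all coefficients in `{-1, 0, 1}`. -/
def F (n : ℕ) : Set ℤ[X] :=
  {P | P.natDegree ≤ n ∧ ∀ i, P.coeff i = -1 ∨ P.coeff i = 0 ∨ P.coeff i = 1}

/-- the orders of vanishing at `1` that are attained (at least) by nonzero elements of `F_n` -/
def orders (n : ℕ) : Set ℕ := {k | ∃ P ∈ F n, P ≠ 0 ∧ (X - 1) ^ k ∣ P}

/-- `M(n) = max {k : (x-1)^k ∣ p for some p ∈ F_n, p ≠ 0}` -/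
noncomputable def M (n : ℕ) : ℕ := sSup (orders n)

lemma orders_le {n k : ℕ} (h : k ∈ orders n) : k ≤ n := by
  obtain ⟨P, ⟨hn, _⟩, h0, hd⟩ := h
  have h1 := natDegree_le_of_dvd hd h0
  have h2 : ((X - 1 : ℤ[X]) ^ k).natDegree = k := by
    have : (X - 1 : ℤ[X]) = X - C 1 := by simp
    rw [this, (monic_X_sub_C (1 : ℤ)).natDegree_pow, natDegree_X_sub_C, mul_one]
  omega

lemma bddAbove_orders (n : ℕ) : BddAbove (orders n) := ⟨n, fun _ h => orders_le h⟩

/-- the supremum defining `M n` is a maximum -/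
lemma M_mem (n : ℕ) : M n ∈ orders n := by
  apply Nat.sSup_mem _ (bddAbove_orders n)
  refine ⟨0, 1, ⟨by simp, ?_⟩, one_ne_zero, by simp⟩
  intro i
  rw [coeff_one]
  split_ifs <;> simp

theorem square_result :
    (∀ n : ℕ, 1 ≤ n → ∀ p : ℂ[X], p.natDegree ≤ n → ‖p.coeff 0‖ = 1 → (∀ j, ‖p.coeff j‖ ≤ 1) →
      (p.rootMultiplicity 1 : ℝ) < 2 * √(n * Real.log 2) + 1) ∧
    ∀ n : ℕ, 1 ≤ n → (M n : ℝ) < 2 * √(n * Real.log 2) + 1 := by
  have h1 : ∀ n : ℕ, 1 ≤ n → ∀ p : ℂ[X], p.natDegree ≤ n → ‖p.coeff 0‖ = 1 →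
      (∀ j, ‖p.coeff j‖ ≤ 1) → (p.rootMultiplicity 1 : ℝ) < 2 * √(n * Real.log 2) + 1 :=
    fun n hn p hp h0 h1 => H30V.order_lt_sq n hn p hp h0 h1
  refine ⟨h1, fun n hn => ?_⟩
  obtain ⟨P, ⟨hn1, hc⟩, h0, hd⟩ := M_mem n
  obtain ⟨q, q1, q2, q3, q4⟩ := H30V.strip (M n) n P.natDegree P le_rfl hn1 hc h0 hd
  by_contra hlt
  push Not at hlt
  have hq0 : q ≠ 0 := by rintro rfl; simp at q3
  -- all orders are strictly smaller
  have h2 : ∃ p : ℂ[X], p.natDegree ≤ n ∧ ‖p.coeff 0‖ = 1 ∧ (∀ j, ‖p.coeff j‖ ≤ 1) ∧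
      M n ≤ p.rootMultiplicity 1 := by
    refine ⟨q.map (Int.castRingHom ℂ), natDegree_map_le.trans q1, ?_, ?_, ?_⟩
    · rw [coeff_map]
      rcases q2 0 with h | h | h
      · rw [h]; simp
      · exact absurd h q3
      · rw [h]; simp
    · intro j
      rw [coeff_map]
      rcases q2 j with h | h | h <;> rw [h] <;> simp
    · have hinj : Function.Injective (Int.castRingHom ℂ) := Int.cast_injective
      have hp0 : q.map (Int.castRingHom ℂ) ≠ 0 := (Polynomial.map_ne_zero_iff hinj).2 hq0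
      rw [le_rootMultiplicity_iff hp0]
      obtain ⟨r, hr⟩ := q4
      refine ⟨r.map (Int.castRingHom ℂ), ?_⟩
      have hr' := congrArg (Polynomial.map (Int.castRingHom ℂ)) hr
      rw [hr', Polynomial.map_mul, Polynomial.map_pow, Polynomial.map_sub, Polynomial.map_X,
        Polynomial.map_one, C_1]
  obtain ⟨p, p1, p2, p3, p4⟩ := h2
  have h3 := h1 n hn p p1 p2 p3
  have h4 : (M n : ℝ) ≤ (p.rootMultiplicity 1 : ℝ) := by exact_mod_cast p4
  linarith

end Pool.Agent.H30V.SquareBoundOld
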