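import Pool.Agent.H30V.Lim

/-!
# The sum of the absolute values of the limit kernel over the integers
-/

namespace Pool.Agent.H30V

open Finset Real Polynomial Filter Topology

theorem node_bounds (M i v : ℕ) (hL : 2 * (i : ℝ) + 2 ≤ L M) (hv : v < M) :
    0 ≤ node M i v ∧ node M i v ≤ L M ∧ 2 * (v : ℝ) ^ 2 / π ^ 2 ≤ node M i v := by
  have hM : 0 < M := by omega
  have hM' : (0 : ℝ) < M := by positivity
  have hi : (0 : ℝ) ≤ i := Nat.cast_nonneg i
  have hv' : (v : ℝ) ≤ M := by exact_mod_cast hv.le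
  rw [node_eq]
  have h1 : 0 ≤ sin (π * v / (2 * M)) ^ 2 := sq_nonneg _
  have h2 : sin (π * v / (2 * M)) ^ 2 ≤ 1 := sin_sq_le_one _
  have h3 : 0 ≤ L M - i := by linarith
  refine ⟨by positivity, by nlinarith, ?_⟩
  have h4 : (v : ℝ) / M ≤ sin (π * v / (2 * M)) := by
    have h5 := mul_le_sin (x := π * v / (2 * M)) (by positivity) (by
      rw [div_le_div_iff₀ (by positivity) (by norm_num)]
      nlinarith [pi_pos])
    have h6 : 2 / π * (π * v / (2 * M)) = v / M := by field_simp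
    rwa [h6] at h5
  have h5 : ((v : ℝ) / M) ^ 2 ≤ sin (π * v / (2 * M)) ^ 2 :=
    pow_le_pow_left₀ (by positivity) h4 2
  have h6 : L M / 2 ≤ L M - i := by linarith
  have h7 : 2 * (v : ℝ) ^ 2 / π ^ 2 = L M / 2 * ((v : ℝ) / M) ^ 2 := by
    unfold L; field_simp; ring
  rw [h7]
  have h8 : L M / 2 * ((v : ℝ) / M) ^ 2 ≤ (L M - i) * sin (π * v / (2 * M)) ^ 2 :=
    mul_le_mul h6 h5 (by positivity) h3
  linarith

/-- the terms -/
noncomputable def F (i M v : ℕ) : ℝ :=
  if v < M then (-1) ^ v * (QP M).eval (node M i v) else 0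

theorem F_bound (i M v : ℕ) (hM : 2 ≤ M) (hL : 2 * (i : ℝ) + 2 ≤ L M) :
    ‖F i M v‖ ≤ 40 / ((v : ℝ) + 1) ^ 2 := by
  unfold F
  split_ifs with hv
  · obtain ⟨h0, h1, h2⟩ := node_bounds M i v hL hv
    rw [norm_mul, norm_pow, norm_neg, norm_one, one_pow, one_mul, Real.norm_eq_abs]
    rw [le_div_iff₀ (by positivity)]
    have hv0 : (0 : ℝ) ≤ v := Nat.cast_nonneg v
    rcases Nat.eq_zero_or_pos v with h | h
    · have := QP_abs_le hM h0 h1
      subst h
      simp at *
      linarith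
    · have hv1 : (1 : ℝ) ≤ v := by exact_mod_cast h
      have h3 : ((v : ℝ) + 1) ^ 2 ≤ 4 * (v : ℝ) ^ 2 := by nlinarith
      have hp : π ^ 2 < 10 := by
        have := pi_lt_d2
        nlinarith [pi_pos]
      rcases lt_or_ge (node M i v) 2 with h4 | h4
      · have h5 := QP_abs_le hM h0 h1
        have h6 : (v : ℝ) ^ 2 ≤ 10 := by
          have h7 : 2 * (v : ℝ) ^ 2 / π ^ 2 < 2 := by linarith
          rw [div_lt_iff₀ (by positivity)] at h7
          nlinarith
        have h8 : |eval (node M i v) (QP M)| * ((v : ℝ) + 1) ^ 2 ≤ 1 * (4 * 10) :=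
          mul_le_mul h5 (by linarith) (by positivity) (by norm_num)
        linarith
      · have h5 := QP_bound_inv hM h4 h1
        have h6 : 1 / node M i v ≤ 10 / (2 * (v : ℝ) ^ 2) := by
          rw [div_le_div_iff₀ (by linarith) (by positivity)]
          have h7 : 2 * (v : ℝ) ^ 2 ≤ node M i v * π ^ 2 := by
            rwa [div_le_iff₀ (by positivity)] at h2
          nlinarith
        have h8 : |eval (node M i v) (QP M)| * ((v : ℝ) + 1) ^ 2 ≤
            10 / (2 * (v : ℝ) ^ 2) * (4 * (v : ℝ) ^ 2) :=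
          mul_le_mul (h5.trans h6) h3 (by positivity) (by positivity)
        have h9 : 10 / (2 * (v : ℝ) ^ 2) * (4 * (v : ℝ) ^ 2) = 20 := by
          field_simp; norm_num
        linarith
  · rw [norm_zero]; positivity

theorem summable_bound : Summable (fun v : ℕ => 40 / ((v : ℝ) + 1) ^ 2) := by
  have h1 : Summable (fun v : ℕ => 1 / ((v : ℝ)) ^ 2) :=
    Real.summable_one_div_nat_pow.2 (by norm_num)
  have h2 := (summable_nat_add_iff 1).2 h1
  refine (h2.mul_left 40).congr fun v => ?_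
  push_cast
  ring

theorem tendsto_F (i v : ℕ) : Tendsto (fun M => F i M v) atTop (𝓝 ((-1) ^ v * g (v ^ 2 + i))) := by
  have h := (tendsto_term i v).const_mul ((-1 : ℝ) ^ v)
  refine h.congr' ?_
  filter_upwards [eventually_gt_atTop v] with M hM
  unfold F
  rw [if_pos hM]

theorem eventually_L (i : ℕ) : ∀ᶠ M : ℕ in atTop, 2 * (i : ℝ) + 2 ≤ L M :=
  tendsto_L.eventually_ge_atTop _

theorem g_term_bound (i v : ℕ) : ‖(-1 : ℝ) ^ v * g (v ^ 2 + i)‖ ≤ 40 / ((v : ℝ) + 1) ^ 2 := by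
  apply le_of_tendsto (tendsto_F i v).norm
  filter_upwards [eventually_L i, eventually_ge_atTop 2] with M h1 h2
  exact F_bound i M v h2 h1

theorem summable_P (i : ℕ) : Summable (fun v : ℕ => (-1 : ℝ) ^ v * g (v ^ 2 + i)) :=
  Summable.of_norm_bounded summable_bound (g_term_bound i)

/-- the alternating sums -/
theorem P_eq (i : ℕ) : 2 * ∑' v : ℕ, (-1 : ℝ) ^ v * g (v ^ 2 + i) - g i = 0 := by
  have h1 : Tendsto (fun M => ∑' v, F i M v) atTop (𝓝 (∑' v : ℕ, (-1 : ℝ) ^ v * g (v ^ 2 + i))) := by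
    apply tendsto_tsum_of_dominated_convergence summable_bound (tendsto_F i)
    filter_upwards [eventually_L i, eventually_ge_atTop 2] with M h1 h2 v
    exact F_bound i M v h2 h1
  have h2 : ∀ M, ∑' v, F i M v = ∑ v ∈ range M, (-1) ^ v * (QP M).eval (node M i v) := by
    intro M
    rw [tsum_eq_sum (s := range M)]
    · apply sum_congr rfl
      intro v hv
      unfold F
      rw [if_pos (mem_range.1 hv)]
    · intro v hv
      unfold F
      rw [if_neg (by simpa using hv)]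
  simp only [h2] at h1
  have h3 : Tendsto (fun M => (QP M).eval (i : ℝ)) atTop (𝓝 (g i)) := by
    have := tendsto_term i 0
    simpa [node] using this
  have h4 : Tendsto (fun M => (-1 : ℝ) ^ M * (QP M).eval (L M)) atTop (𝓝 0) := by
    have h5 : Tendsto (fun M => (L M)⁻¹) atTop (𝓝 0) := tendsto_inv_atTop_zero.comp tendsto_L
    apply squeeze_zero_norm' _ h5
    filter_upwards [tendsto_L.eventually_ge_atTop 2, eventually_ge_atTop 2] with M h6 h7
    rw [norm_mul, norm_pow, norm_neg, norm_one, one_pow, one_mul, Real.norm_eq_abs]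
    have := QP_bound_inv h7 h6 le_rfl
    rwa [one_div] at this
  have h5 := ((h1.const_mul 2).sub h3).add h4
  rw [add_zero] at h5
  refine tendsto_nhds_unique h5 (tendsto_const_nhds.congr' ?_)
  filter_upwards [eventually_gt_atTop 0] with M hM
  exact (quad M i hM).symm

theorem abs_g_le (j : ℕ) (hj : 2 ≤ j) : |g j| ≤ 1 / (π * √j * (j - 1)) := by
  have hj' : (2 : ℝ) ≤ j := by exact_mod_cast hj
  unfold g
  rw [if_neg (by omega), if_neg (by omega), abs_div, abs_neg]
  have h1 : 0 < √(j : ℝ) := sqrt_pos.2 (by linarith)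
  have h2 : 0 < π * √(j : ℝ) * (j - 1) := by
    have : (0 : ℝ) < j - 1 := by linarith
    positivity
  rw [abs_of_pos h2]
  exact div_le_div_of_nonneg_right (abs_sin_le_one _) h2.le

/-- telescoping bound -/
theorem tele_bound (j : ℕ) (hj : 2 ≤ j) :
    1 / (π * √(j : ℝ) * (j - 1)) ≤ 1 / √((j : ℝ) - 1) - 1 / √(j : ℝ) := by
  have hj' : (2 : ℝ) ≤ j := by exact_mod_cast hj
  set a := √((j : ℝ) - 1) with ha
  set b := √(j : ℝ) with hb
  have ha2 : a ^ 2 = j - 1 := sq_sqrt (by linarith)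
  have hb2 : b ^ 2 = j := sq_sqrt (by linarith)
  have ha0 : 0 < a := sqrt_pos.2 (by linarith)
  have hb0 : 0 < b := sqrt_pos.2 (by linarith)
  have hab : b ≤ 2 * a := by nlinarith
  have h1 : (b - a) * (b + a) = 1 := by nlinarith
  have h2 : 1 / a - 1 / b = 1 / (a * b * (b + a)) := by
    have : 1 / a - 1 / b = (b - a) / (a * b) := by field_simp
    rw [this, div_eq_div_iff (by positivity) (by positivity)]
    linear_combination (a * b) * h1
  rw [h2, ← ha2]
  apply one_div_le_one_div_of_le (by positivity)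
  have h3 : b + a ≤ 3 * a := by linarith
  have h4 : (3 : ℝ) * a ≤ π * a := by nlinarith [pi_gt_three]
  calc a * b * (b + a) ≤ a * b * (π * a) :=
        mul_le_mul_of_nonneg_left (h3.trans h4) (by positivity)
    _ = π * b * a ^ 2 := by ring

theorem summable_abs_g : Summable (fun j : ℕ => |g j|) := by
  rw [← summable_nat_add_iff 2]
  apply summable_of_sum_range_le (c := 1) (fun j => abs_nonneg _)
  intro n
  have h1 : ∀ n : ℕ, ∑ j ∈ range n, |g (j + 2)| ≤ 1 - 1 / √((n : ℝ) + 1) := by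
    intro n
    induction n with
    | zero => simp
    | succ n ih =>
      rw [sum_range_succ]
      have h2 := (abs_g_le (n + 2) (by omega)).trans (tele_bound (n + 2) (by omega))
      push_cast at h2 ⊢
      have h3 : (n : ℝ) + 2 - 1 = n + 1 := by ring
      have h4 : (n : ℝ) + 1 + 1 = n + 2 := by ring
      rw [h3] at h2
      rw [h4]
      linarith
  have h2 : 0 ≤ 1 / √((n : ℝ) + 1) := by positivity
  linarith [h1 n]

theorem summable_g : Summable g := by
  have := summable_abs_g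
  exact this.of_abs

/-- partial alternating sums -/
theorem B_eq (h : ℕ → ℝ) (hs : Summable (fun j => |h j|)) (V : ℕ) :
    2 * ∑ v ∈ range (V + 1), (-1 : ℝ) ^ v * ∑' j, h (j + v ^ 2) - ∑' j, h j =
      ∑' j, (-1 : ℝ) ^ (min V (Nat.sqrt j)) * h j := by
  have hs' : Summable h := hs.of_abs
  induction V with
  | zero => simp; ring
  | succ V ih =>
    have hsV : ∀ V, Summable (fun j => (-1 : ℝ) ^ (min V (Nat.sqrt j)) * h j) := by
      intro V
      apply Summable.of_norm_bounded hs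
      intro j
      rw [norm_mul, norm_pow, norm_neg, norm_one, one_pow, one_mul, Real.norm_eq_abs]
    rw [sum_range_succ, mul_add, add_sub_right_comm, ih]
    have h1 : ∑' j, (-1 : ℝ) ^ (min (V + 1) (Nat.sqrt j)) * h j -
        ∑' j, (-1 : ℝ) ^ (min V (Nat.sqrt j)) * h j =
        ∑' j, ((-1 : ℝ) ^ (min (V + 1) (Nat.sqrt j)) * h j -
          (-1 : ℝ) ^ (min V (Nat.sqrt j)) * h j) := ((hsV (V + 1)).tsum_sub (hsV V)).symm
    have hsd : Summable (fun j => (-1 : ℝ) ^ (min (V + 1) (Nat.sqrt j)) * h j -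
          (-1 : ℝ) ^ (min V (Nat.sqrt j)) * h j) := (hsV (V + 1)).sub (hsV V)
    have h2 := hsd.sum_add_tsum_nat_add ((V + 1) ^ 2)
    have h3 : ∑ j ∈ range ((V + 1) ^ 2), ((-1 : ℝ) ^ (min (V + 1) (Nat.sqrt j)) * h j -
          (-1 : ℝ) ^ (min V (Nat.sqrt j)) * h j) = 0 := by
      apply sum_eq_zero
      intro j hj
      have h4 : Nat.sqrt j < V + 1 := by
        rw [Nat.sqrt_lt']
        exact mem_range.1 hj
      rw [min_eq_right (by omega), min_eq_right (by omega), sub_self]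
    have h5 : ∀ j : ℕ, ((-1 : ℝ) ^ (min (V + 1) (Nat.sqrt (j + (V + 1) ^ 2))) * h (j + (V + 1) ^ 2) -
          (-1 : ℝ) ^ (min V (Nat.sqrt (j + (V + 1) ^ 2))) * h (j + (V + 1) ^ 2)) =
          2 * (-1 : ℝ) ^ (V + 1) * h (j + (V + 1) ^ 2) := by
      intro j
      have h6 : V + 1 ≤ Nat.sqrt (j + (V + 1) ^ 2) := by
        rw [Nat.le_sqrt']
        omega
      rw [min_eq_left h6, min_eq_left (by omega)]
      ring
    rw [h3, zero_add] at h2
    simp only [h5] at h2
    rw [tsum_mul_left] at h2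
    linarith

theorem abs_tsum_le' (h : ℕ → ℝ) (hs : Summable (fun j => |h j|)) (V : ℕ) :
    |∑' j, (-1 : ℝ) ^ (min V (Nat.sqrt j)) * h j| ≤ ∑' j, |h j| := by
  have h1 : ∀ j, |(-1 : ℝ) ^ (min V (Nat.sqrt j)) * h j| = |h j| := by
    intro j
    rw [abs_mul, abs_pow, abs_neg, abs_one, one_pow, one_mul]
  have h2 : Summable (fun j => |(-1 : ℝ) ^ (min V (Nat.sqrt j)) * h j|) := by
    simpa only [h1] using hs
  calc |∑' j, (-1 : ℝ) ^ (min V (Nat.sqrt j)) * h j|
      ≤ ∑' j, |(-1 : ℝ) ^ (min V (Nat.sqrt j)) * h j| := by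
        have := norm_tsum_le_tsum_norm (f := fun j => (-1 : ℝ) ^ (min V (Nat.sqrt j)) * h j)
          (by simpa only [Real.norm_eq_abs] using h2)
        simpa only [Real.norm_eq_abs] using this
    _ = ∑' j, |h j| := by simp only [h1]

theorem tendsto_A (i : ℕ) : Tendsto (fun V : ℕ =>
    2 * ∑ v ∈ range (V + 1), (-1 : ℝ) ^ v * g (v ^ 2 + i) - g i) atTop (𝓝 0) := by
  have h1 := (summable_P i).hasSum.tendsto_sum_nat
  have h1' : Tendsto (fun V : ℕ => ∑ v ∈ range (V + 1), (-1 : ℝ) ^ v * g (v ^ 2 + i)) atTop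
      (𝓝 (∑' v : ℕ, (-1 : ℝ) ^ v * g (v ^ 2 + i))) := h1.comp (tendsto_add_atTop_nat 1)
  have h2 := (h1'.const_mul 2).sub_const (g i)
  rwa [P_eq i] at h2

theorem T_zero : ∑' j : ℕ, (-1 : ℝ) ^ (Nat.sqrt j) * g j = 0 := by
  have hg := summable_abs_g
  -- the limit in V
  have hT : Tendsto (fun V : ℕ => ∑' j, (-1 : ℝ) ^ (min V (Nat.sqrt j)) * g j) atTop
      (𝓝 (∑' j : ℕ, (-1 : ℝ) ^ (Nat.sqrt j) * g j)) := by
    apply tendsto_tsum_of_dominated_convergence hg
    · intro j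
      apply tendsto_const_nhds.congr'
      filter_upwards [eventually_ge_atTop (Nat.sqrt j)] with V hV
      rw [min_eq_right hV]
    · filter_upwards with V j
      rw [norm_mul, norm_pow, norm_neg, norm_one, one_pow, one_mul, Real.norm_eq_abs]
  -- the bound
  have hb : ∀ J : ℕ, |∑' j : ℕ, (-1 : ℝ) ^ (Nat.sqrt j) * g j| ≤ ∑' j, |g (j + J)| := by
    intro J
    have hgJ : Summable (fun j => |g (j + J)|) := (summable_nat_add_iff (f := fun j => |g j|) J).2 hg
    have hA : Tendsto (fun V : ℕ => ∑ i ∈ range J,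
        (2 * ∑ v ∈ range (V + 1), (-1 : ℝ) ^ v * g (v ^ 2 + i) - g i)) atTop (𝓝 0) := by
      have h3 := tendsto_finsetSum (range J) (fun i _ => tendsto_A i)
      simpa only [sum_const_zero] using h3
    have hAB : ∀ V : ℕ, ∑ i ∈ range J,
        (2 * ∑ v ∈ range (V + 1), (-1 : ℝ) ^ v * g (v ^ 2 + i) - g i) =
        ∑' j, (-1 : ℝ) ^ (min V (Nat.sqrt j)) * g j -
          ∑' j, (-1 : ℝ) ^ (min V (Nat.sqrt j)) * g (j + J) := by
      intro V
      rw [← B_eq g hg V, ← B_eq (fun j => g (j + J)) hgJ V]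
      rw [sum_sub_distrib, ← mul_sum, sum_comm]
      have e1 : ∀ v : ℕ, ∑ i ∈ range J, (-1 : ℝ) ^ v * g (v ^ 2 + i) =
          (-1 : ℝ) ^ v * ∑' j, g (j + v ^ 2) - (-1 : ℝ) ^ v * ∑' j, g (j + v ^ 2 + J) := by
        intro v
        have h3 : Summable (fun j => g (j + v ^ 2)) := (summable_nat_add_iff (f := g) (v ^ 2)).2 summable_g
        have h4 := h3.sum_add_tsum_nat_add J
        have h5 : ∀ j, g (j + J + v ^ 2) = g (j + v ^ 2 + J) := fun j => by congr 1; ring
        simp only [h5] at h4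
        rw [← h4, ← mul_sum]
        have h6 : ∑ i ∈ range J, g (v ^ 2 + i) = ∑ i ∈ range J, g (i + v ^ 2) :=
          sum_congr rfl fun i _ => by rw [add_comm]
        rw [h6]; ring
      rw [sum_congr rfl (fun v _ => e1 v), sum_sub_distrib]
      have h7 := summable_g.sum_add_tsum_nat_add J
      linarith
    have h1 := hT.sub hA
    rw [sub_zero] at h1
    apply le_of_tendsto h1.abs
    filter_upwards with V
    rw [hAB V, sub_sub_cancel]
    exact abs_tsum_le' (fun j => g (j + J)) hgJ V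
  have h2 : Tendsto (fun J : ℕ => ∑' j, |g (j + J)|) atTop (𝓝 0) :=
    tendsto_sum_nat_add (fun j => |g j|)
  have h3 : |∑' j : ℕ, (-1 : ℝ) ^ (Nat.sqrt j) * g j| ≤ 0 :=
    ge_of_tendsto h2 (Eventually.of_forall hb)
  exact abs_eq_zero.1 (le_antisymm h3 (abs_nonneg _))

theorem sign_sin (j : ℕ) : 0 ≤ (-1 : ℝ) ^ (Nat.sqrt j) * sin (π * √(j : ℝ)) := by
  set v := Nat.sqrt j with hv
  have h1 : (v : ℝ) ≤ √(j : ℝ) := by
    apply le_sqrt_of_sq_le
    exact_mod_cast (Nat.sqrt_le' j)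
  have h2 : √(j : ℝ) ≤ v + 1 := by
    rw [sqrt_le_left (by positivity)]
    exact_mod_cast (Nat.lt_succ_sqrt' j).le
  have h3 : sin (π * √(j : ℝ)) = (-1) ^ v * sin (π * (√(j : ℝ) - v)) := by
    have : π * √(j : ℝ) = π * (√(j : ℝ) - v) + v * π := by ring
    rw [this, sin_add_nat_mul_pi]
  rw [h3, ← mul_assoc, ← pow_add, ← two_mul, pow_mul]
  simp only [even_two, Even.neg_pow, one_pow, one_mul]
  apply sin_nonneg_of_nonneg_of_le_pi
  · apply mul_nonneg pi_pos.le; linarith
  · nlinarith [pi_pos]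

theorem abs_g_eq (j : ℕ) (hj : 1 ≤ j) : |g j| = - ((-1 : ℝ) ^ (Nat.sqrt j) * g j) := by
  rcases hj.eq_or_lt with h | h
  · subst h
    norm_num [g]
  · have hj' : (2 : ℝ) ≤ j := by exact_mod_cast h
    have h1 : 0 < √(j : ℝ) := sqrt_pos.2 (by linarith)
    have h2 : 0 < π * √(j : ℝ) * (j - 1) := by
      have : (0 : ℝ) < j - 1 := by linarith
      positivity
    have h3 := sign_sin j
    unfold g
    rw [if_neg (by omega), if_neg (by omega)]
    have h4 : - ((-1 : ℝ) ^ (Nat.sqrt j) * (- sin (π * √(j : ℝ)) / (π * √(j : ℝ) * (j - 1)))) =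
        ((-1 : ℝ) ^ (Nat.sqrt j) * sin (π * √(j : ℝ))) / (π * √(j : ℝ) * (j - 1)) := by ring
    rw [h4, abs_div, abs_neg, abs_of_pos h2]
    congr 1
    rw [← abs_of_nonneg h3, abs_mul, abs_pow, abs_neg, abs_one, one_pow, one_mul]

/-- the main identity -/
theorem sum_abs_g : ∑' j : ℕ, |g (j + 1)| = 1 := by
  have hg := summable_abs_g
  have h1 : Summable (fun j : ℕ => (-1 : ℝ) ^ (Nat.sqrt j) * g j) := by
    apply Summable.of_norm_bounded hg
    intro j
    rw [norm_mul, norm_pow, norm_neg, norm_one, one_pow, one_mul, Real.norm_eq_abs]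
  have h2 := h1.sum_add_tsum_nat_add 1
  rw [T_zero] at h2
  have h3 : ∀ j : ℕ, |g (j + 1)| = - ((-1 : ℝ) ^ (Nat.sqrt (j + 1)) * g (j + 1)) :=
    fun j => abs_g_eq (j + 1) (by omega)
  simp only [h3]
  rw [tsum_neg]
  have h4 : ∑ i ∈ range 1, (-1 : ℝ) ^ (Nat.sqrt i) * g i = 1 := by simp [g]
  rw [h4] at h2
  linarith

end Pool.Agent.H30V
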