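import Pool.Agent.Van2H.Final

set_option autoImplicit false

/-!
# MP_178164_nt: an upper bound for the order of vanishing at 1

A nonzero complex polynomial of degree at most `n`, all of whose coefficients other than the lowest
nonzero one have modulus at most `H` times the modulus of the lowest one, vanishes at `1` to order
at most `2 ⌊√((n + 1/2) log (1 + H))⌋`.  For `H = 1` this applies to the nonzero polynomials with
coefficients in `{-1, 0, 1}`.
-/

open Polynomial

namespace Pool.Agent.H30V.UpperConstantOld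

/-- `F_n`: integer polynomials of degree at most `n` with all coefficients in `{-1, 0, 1}`. -/
def F (n : ℕ) : Set ℤ[X] :=
  {P | P.natDegree ≤ n ∧ ∀ i, P.coeff i = -1 ∨ P.coeff i = 0 ∨ P.coeff i = 1}

/-- The set of all `k` such that `(x - 1) ^ k` divides some nonzero polynomial of `F_n`. -/
def orders (n : ℕ) : Set ℕ := {k | ∃ P ∈ F n, P ≠ 0 ∧ (X - 1) ^ k ∣ P}

/-- `M(n)`, the largest element of `orders n` (see `M_mem`). -/
noncomputable def M (n : ℕ) : ℕ := sSup (orders n)

theorem orders_bound (n k : ℕ) (hk : k ∈ orders n) :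
    k ≤ 2 * ⌊√(((n : ℝ) + 1 / 2) * Real.log 2)⌋₊ := by
  obtain ⟨P, ⟨hn, hc⟩, hP, hd⟩ := hk
  have hinj : Function.Injective (Int.castRingHom ℂ) := Int.cast_injective
  have h11 : (1 : ℝ) + 1 = 2 := by norm_num
  suffices key : k ≤ 2 * ⌊√(((n : ℝ) + 1 / 2) * Real.log (1 + 1))⌋₊ by rwa [h11] at key
  refine Van2H.main n k 1 zero_le_one (P.map (Int.castRingHom ℂ)) ?_
    ((Polynomial.map_ne_zero_iff hinj).2 hP) ?_ ?_
  · rw [natDegree_map_eq_of_injective hinj]
    exact hn
  · have h1 : (P.map (Int.castRingHom ℂ)).natTrailingDegree = P.natTrailingDegree := by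
      have hP' : P.map (Int.castRingHom ℂ) ≠ 0 := (Polynomial.map_ne_zero_iff hinj).2 hP
      refine le_antisymm ?_ ?_
      · refine natTrailingDegree_le_of_ne_zero ?_
        rw [coeff_map]
        have : P.coeff P.natTrailingDegree ≠ 0 := by
          have := (trailingCoeff_nonzero_iff_nonzero (p := P)).2 hP
          exact this
        intro h
        exact this (hinj (by rw [h, map_zero]))
      · refine natTrailingDegree_le_of_ne_zero ?_
        have h2 : (P.map (Int.castRingHom ℂ)).coeff
            (P.map (Int.castRingHom ℂ)).natTrailingDegree ≠ 0 :=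
          (trailingCoeff_nonzero_iff_nonzero).2 hP'
        rw [coeff_map] at h2
        intro h
        rw [h, map_zero] at h2
        exact h2 rfl
    have h2 : P.coeff P.natTrailingDegree ≠ 0 :=
      (trailingCoeff_nonzero_iff_nonzero (p := P)).2 hP
    have h3 : ‖(P.map (Int.castRingHom ℂ)).trailingCoeff‖ = 1 := by
      rw [trailingCoeff, h1, coeff_map]
      rcases hc P.natTrailingDegree with h | h | h
      · rw [h]; simp
      · exact absurd h h2
      · rw [h]; simp
    intro j _
    rw [h3, coeff_map]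
    rcases hc j with h | h | h <;> rw [h] <;> simp
  · have := Polynomial.map_dvd (Int.castRingHom ℂ) hd
    simpa using this

theorem M_mem (n : ℕ) : M n ∈ orders n := by
  refine Nat.sSup_mem ⟨0, 1, ⟨by simp, fun i => ?_⟩, one_ne_zero, by simp⟩
    ⟨_, fun k hk => orders_bound n k hk⟩
  rw [coeff_one]
  split_ifs <;> simp

/-- The order of vanishing at `1` of a nonzero complex polynomial of degree at most `n`, whose
coefficients other than the lowest nonzero one are at most `H` times the lowest one in modulus, is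
at most `2 ⌊√((n + 1/2) log (1 + H))⌋`; and `M(n) ≤ 2 ⌊√((n + 1/2) log 2)⌋` for every `n`. -/
theorem result :
    (∀ n k : ℕ, ∀ H : ℝ, 0 ≤ H → ∀ P : ℂ[X], P ≠ 0 → P.natDegree ≤ n →
      (∀ j, j ≠ P.natTrailingDegree → ‖P.coeff j‖ ≤ H * ‖P.trailingCoeff‖) →
      (X - 1) ^ k ∣ P → k ≤ 2 * ⌊√(((n : ℝ) + 1 / 2) * Real.log (1 + H))⌋₊) ∧
    ∀ n : ℕ, M n ≤ 2 * ⌊√(((n : ℝ) + 1 / 2) * Real.log 2)⌋₊ :=
  ⟨fun n k H hH P h0 h1 h2 h3 => Van2H.main n k H hH P h1 h0 h2 h3,
    fun n => orders_bound n _ (M_mem n)⟩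

end Pool.Agent.H30V.UpperConstantOld
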